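import Mathlib

/-!
# Normal order of the iterated totient class: definitions

`lg` is the base two logarithm, `PN n` the set of primes `≤ 2^n`, `DB n` the set of primes in
`(2^n, 2^(n+1)]`, `AA g n = ∑_{p ≤ 2^n} g(p) lg(p)/p`, and `mx p` is the contribution of the square
part of `p - 1`.
-/

set_option autoImplicit false

open Finset

namespace Pool.Agent.Helper94.Tot

/-- base two logarithm -/
noncomputable def lg (n : ℕ) : ℝ := Real.logb 2 n

/-- primes `≤ 2^n` -/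
def PN (n : ℕ) : Finset ℕ := (Icc 1 (2 ^ n)).filter Nat.Prime

/-- primes in `(2^n, 2^(n+1)]` -/
def DB (n : ℕ) : Finset ℕ := (Ioc (2 ^ n) (2 ^ (n + 1))).filter Nat.Prime

/-- weighted sum `∑_{p ≤ 2^n} g(p) lg(p)/p` -/
noncomputable def AA (g : ℕ → ℝ) (n : ℕ) : ℝ := ∑ p ∈ PN n, g p * (lg p / p)

/-- `∑_{q^v ‖ p-1} (v-1) lg q` -/
noncomputable def mx (p : ℕ) : ℝ := lg (p - 1) - ∑ q ∈ (p - 1).primeFactors, lg q

/-- `∑_{d ∈ D, d ∣ n} μ(d)` -/
noncomputable def SS (D : Finset ℕ) (n : ℕ) : ℝ :=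
  ∑ d ∈ D.filter (fun d => d ∣ n), (ArithmeticFunction.moebius d : ℝ)

/-- `∑_{d ∈ D, (d,a)=1} μ(d)/d` -/
noncomputable def sg (D : Finset ℕ) (a : ℕ) : ℝ :=
  ∑ d ∈ D.filter (fun d => Nat.Coprime d a), (ArithmeticFunction.moebius d : ℝ) / d

/-- the subadditivity of the iterated totient at primes -/
def Sub (y : ℕ → ℝ) : Prop :=
  ∀ p, p.Prime → lg p * y p ≤ ∑ q ∈ (p - 1).primeFactors, lg q * y q + mx p + 1

end Pool.Agent.Helper94.Tot
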