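import Pool.Agent.Helper94.Tot.Defs
import Pool.Agent.Helper42.Tot.F
import Pool.Agent.Helper90.TwinS

/-!
# Normal order of the iterated totient class: statements of the packets
-/

set_option autoImplicit false

open Finset Filter Topology

namespace Pool.Agent.Helper94.Tot

/-! ### classical inputs -/

/-- Mertens' first theorem. -/
def StmtM1 : Prop := ∃ C : ℝ, 0 < C ∧ ∀ n : ℕ, |∑ p ∈ PN n, lg p / p - n| ≤ C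

/-- Mertens' product. -/
def StmtMP : Prop := ∃ C : ℝ, 0 < C ∧ ∀ u v : ℕ, 2 ≤ u → u ≤ v →
  ∏ p ∈ (Ioc u v).filter Nat.Prime, (1 - 1 / (p : ℝ)) ≤ C * (Real.log u / Real.log v)

/-- lower bound for the sum of the reciprocals of the primes, in multiplicative form -/
def StmtSz : Prop := ∃ C : ℝ, 0 < C ∧ ∀ z : ℕ, 2 ≤ z →
  Real.exp (-Pool.Agent.Helper90.Twin.Sz z) ≤ C / Real.log z

/-- Mertens' product without the primes dividing `a`. -/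
def StmtPA : Prop := ∃ C : ℝ, 0 < C ∧ ∀ u v a : ℕ, 4 ≤ u → u ≤ v → a ≠ 0 →
  ∏ p ∈ (Ioc u v).filter (fun p => p.Prime ∧ ¬ p ∣ a), (1 - 1 / (p : ℝ))
    ≤ C * (Real.log u / Real.log v) *
      Real.exp (2 * (((Ioc u v).filter (fun p => p.Prime ∧ p ∣ a)).card : ℝ) / u)

/-- the general sieve upper bound (dimension at most two), from `Helper90.Twin.fundamental` -/
def StmtGS : Prop := ∃ (K : ℕ) (C : ℝ), 1 ≤ K ∧ 0 < C ∧ ∀ z N : ℕ, 1 ≤ N → z ^ K ≤ N →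
  ∀ w : ℕ → ℕ → ℝ, Pool.Agent.Helper90.Twin.Adm w 2 →
  ∑ t ∈ range N, ∏ p ∈ Pool.Agent.Helper90.Twin.Ps z, (1 - w p t)
    ≤ C * N * (∏ p ∈ Pool.Agent.Helper90.Twin.Ps z, (1 - Pool.Agent.Helper90.Twin.nu w p / p)
        + Real.exp (-(3 * Pool.Agent.Helper90.Twin.Sz z)))

/-- Brun-Titchmarsh. -/
def StmtBT : Prop := ∃ C : ℝ, 0 < C ∧ ∀ d N : ℕ, 1 ≤ d → 2 ≤ N →
  (((Icc 1 N).filter (fun t => (d * t + 1).Prime)).card : ℝ)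
    ≤ C * (N / Real.log N) * (d / (Nat.totient d : ℝ))

/-- The twin sieve bound. -/
def StmtTW : Prop := ∃ C : ℝ, 0 < C ∧ ∀ a N : ℕ, 1 ≤ a → 2 ≤ N →
  (((Icc 1 N).filter (fun t => t.Prime ∧ (a * t + 1).Prime)).card : ℝ)
    ≤ C * (N / (Real.log N) ^ 2) * (a / (Nat.totient a : ℝ))

/-- Primes `p` such that `p - 1` avoids a set of primes. -/
def StmtD3 : Prop := ∃ (C : ℝ) (c : ℕ), 0 < C ∧ 0 < c ∧ ∀ n m : ℕ, 1 ≤ n → c * m ≤ n →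
  ∀ L : Finset ℕ, (∀ q ∈ L, q.Prime ∧ 5 ≤ q ∧ q ≤ 2 ^ m) →
  (((DB n).filter (fun p => ∀ q ∈ L, ¬ q ∣ p - 1)).card : ℝ)
    ≤ C * (2 ^ n / n) * Real.exp (-∑ q ∈ L, 1 / (q : ℝ))

/-! ### the bilinear lemma -/

/-- Brun-Hooley weights. -/
def StmtBH : Prop := ∃ (E : ℕ) (C : ℝ), 0 < C ∧ ∀ u v : ℕ, 4 ≤ u → u ≤ v → ∃ D : Finset ℕ,
  1 ∈ D ∧ (∀ d ∈ D, Squarefree d ∧ d ≤ v ^ E ∧ ∀ p, p.Prime → p ∣ d → u < p ∧ p ≤ v) ∧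
  (∀ n : ℕ, n ≠ 0 → 0 ≤ SS D n) ∧
  (∀ a : ℕ, a ≠ 0 →
    sg D a ≤ C * ∏ p ∈ (Ioc u v).filter (fun p => p.Prime ∧ ¬ p ∣ a), (1 - 1 / (p : ℝ)))

/-- counting lemma for the variance -/
def StmtCnt : Prop := ∀ e b K m m' d d' : ℕ, 1 ≤ e → 1 ≤ b → 1 ≤ K → 1 ≤ m → 1 ≤ m' →
  Squarefree d → Squarefree d' → Nat.Coprime d e → Nat.Coprime d' e →
  ((¬ (Nat.Coprime e (b * m) ∧ m ≡ m' [MOD e] ∧ Nat.Coprime d (b * m) ∧ Nat.Coprime d' (b * m') ∧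
      m ≡ m' [MOD (Nat.gcd d d')]) →
    ((Icc 1 K).filter (fun k => (e ∣ b * m * k + 1 ∧ e ∣ b * m' * k + 1) ∧
      (d ∣ b * m * k + 1 ∧ d' ∣ b * m' * k + 1))).card = 0) ∧
   ((Nat.Coprime e (b * m) ∧ m ≡ m' [MOD e] ∧ Nat.Coprime d (b * m) ∧ Nat.Coprime d' (b * m') ∧
      m ≡ m' [MOD (Nat.gcd d d')]) →
    |(((Icc 1 K).filter (fun k => (e ∣ b * m * k + 1 ∧ e ∣ b * m' * k + 1) ∧
      (d ∣ b * m * k + 1 ∧ d' ∣ b * m' * k + 1))).card : ℝ)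
      - K * (Nat.gcd d d' : ℝ) / (e * d * d')| ≤ 1))

/-- the variance bound -/
def StmtVar : Prop := ∀ (D : Finset ℕ) (Y u : ℕ), 1 ≤ Y → 1 ≤ u →
  (∀ d ∈ D, Squarefree d ∧ d ≤ Y ∧ ∀ p, p.Prime → p ∣ d → u < p) →
  ∀ e b : ℕ, 1 ≤ e → (∀ p, p.Prime → p ∣ e → p ≤ u) → 1 ≤ b → ∀ K M : ℕ, 1 ≤ K → e ≤ M →
  ∑ k ∈ Icc 1 K, (∑ m ∈ (Ico M (2 * M)).filter (fun m => e ∣ b * m * k + 1),
      (SS D (b * m * k + 1) - sg D (b * m))) ^ 2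
    ≤ 10 * K * M ^ 2 * (1 + Real.log Y) ^ 3 * (1 / (e ^ 2 * u) + 1 / (e * M))
      + 10 * Y ^ 2 * M ^ 2 / e

/-- the sum over `m` of a truncated divisor sum -/
def StmtSum : Prop := ∀ (D : Finset ℕ) (Y : ℕ), (∀ d ∈ D, Squarefree d ∧ d ≤ Y) →
  ∀ b k M : ℕ, 1 ≤ b → 1 ≤ k → 1 ≤ M →
  |∑ m ∈ Ico M (2 * M), SS D (b * m * k + 1) - M * sg D (b * k)| ≤ Y

/-- the error term of the bilinear lemma -/
def StmtErr : Prop := ∀ (D1 D2 : Finset ℕ) (Y1 Y2 u : ℕ), 1 ≤ Y1 → 1 ≤ Y2 → 1 ≤ u →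
  (∀ d ∈ D1, Squarefree d ∧ d ≤ Y1 ∧ ∀ p, p.Prime → p ∣ d → p ≤ u) →
  (∀ d ∈ D2, Squarefree d ∧ d ≤ Y2 ∧ ∀ p, p.Prime → p ∣ d → u < p) →
  ∀ b K M : ℕ, 1 ≤ b → 1 ≤ K → Y1 ≤ M → ∀ w : ℕ → ℝ, (∀ k, 0 ≤ w k ∧ w k ≤ 1) →
  ∑ m ∈ Ico M (2 * M), ∑ k ∈ Icc 1 K,
      w k * SS D1 (b * m * k + 1) * (SS D2 (b * m * k + 1) - sg D2 (b * m))
    ≤ 4 * K * M * (1 + Real.log Y2) ^ 2 * ((1 + Real.log Y1) / √u + Y1 / √M)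
      + 4 * √K * Y2 * M * Y1

/-- the bilinear lemma -/
def StmtBL : Prop := ∃ (κ A n0 : ℕ) (C : ℝ), 1 ≤ κ ∧ 0 < C ∧ ∀ n : ℕ, n0 ≤ n →
  ∀ b : ℕ, (b = 1 ∨ b.Prime) → b ^ 2 ≤ 2 ^ (n + 1) → ∀ M : ℕ, n ^ A ≤ M → M ^ κ ≤ 2 ^ n →
  ∀ w : ℕ → ℝ, (∀ k, 0 ≤ w k ∧ w k ≤ 1) →
  ∑ m ∈ Ico M (2 * M), ∑ k ∈ (Icc 1 (2 ^ (n + 1) / (b * M))).filter
      (fun k => k.Prime ∧ (b * m * k + 1).Prime), w k
    ≤ C * (M / n) * ∑ k ∈ (Icc 1 (2 ^ (n + 1) / (b * M))).filter Nat.Prime, w k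
      + 2 ^ n / (b * (n : ℝ) ^ 10)

/-! ### the dominated sums -/

/-- large prime factors, with the fixed factor `b` -/
def StmtNB : Prop := ∃ (κ : ℕ) (C : ℝ), 1 ≤ κ ∧ 0 < C ∧ ∀ n : ℕ, 1 ≤ n →
  ∀ b : ℕ, (b = 1 ∨ b.Prime) → b ^ 2 ≤ 2 ^ (n + 1) →
  ∀ (W : ℕ → ℝ) (B : ℝ), (∀ k, 0 ≤ W k) → (∀ k ∈ PN (n + 1), W k ≤ B) →
  ∑ k ∈ PN (n + 1), W k *
      (((DB n).filter (fun p => b * k ∣ p - 1 ∧ ((p - 1) / (b * k)) ^ κ < 2 ^ n)).card : ℝ)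
    ≤ C * (2 ^ n / (b * n)) * ∑ k ∈ PN (n + 1), W k / k + C * B * 2 ^ n / (b * (n * √n))

/-- first moment -/
def StmtN1 : Prop := ∃ C : ℝ, 0 < C ∧ ∀ n : ℕ, 1 ≤ n →
  ∀ (W : ℕ → ℝ) (B : ℝ), (∀ q, 0 ≤ W q) → (∀ q ∈ PN (n + 1), W q ≤ B) →
  ∑ p ∈ DB n, ∑ q ∈ (p - 1).primeFactors, W q
    ≤ C * (2 ^ n / n) * ∑ q ∈ PN (n + 1), W q / q + C * B * 2 ^ n / (n * √n)

/-- pairs -/
def StmtN2 : Prop := ∃ C : ℝ, 0 < C ∧ ∀ n : ℕ, 1 ≤ n →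
  ∀ g : ℕ → ℝ, (∀ q, 0 ≤ g q ∧ g q ≤ 1) →
  ∑ p ∈ DB n, ∑ x ∈ (p - 1).primeFactors.offDiag, (lg x.1 * g x.1) * (lg x.2 * g x.2)
    ≤ C * (2 ^ n / n) * (AA g (n + 1)) ^ 2 + C * n * 2 ^ n / √n

/-- the square part of `p - 1` is small -/
def StmtMX : Prop := ∃ C : ℝ, 0 < C ∧ ∀ n : ℕ, 1 ≤ n →
  ∑ p ∈ DB n, (mx p + 1) ≤ C * 2 ^ n / √n

/-! ### the main theorem -/

/-- the convergence theorem for subadditive functions on the primes -/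
def StmtMain : Prop := ∀ y : ℕ → ℝ, (∀ p, 0 ≤ y p ∧ y p ≤ 1) → Sub y → Sub (fun p => 1 - y p) →
  ∃ α : ℝ, 0 ≤ α ∧ Tendsto (fun n : ℕ => AA (fun p => |y p - α|) n / n) atTop (𝓝 0)

/-- the normalized value of the additive function at primes -/
noncomputable def yy (p : ℕ) : ℝ :=
  if p.Prime then (Pool.Agent.Helper42.Tot.f p : ℝ) / lg p else 0

/-- properties of `yy` -/
def StmtY : Prop := (∀ p, 0 ≤ yy p ∧ yy p ≤ 1) ∧ Sub yy ∧ Sub (fun p => 1 - yy p) ∧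
  (∀ p, p.Prime → Real.log 2 / Real.log 3 ≤ yy p)

/-- transfer to integers -/
def StmtTR : Prop := ∀ α : ℝ, 0 < α →
  Tendsto (fun n : ℕ => AA (fun p => |yy p - α|) n / n) atTop (𝓝 0) →
  ∀ ε : ℝ, 0 < ε →
      Tendsto
        (fun N : ℕ =>
          (((Finset.range N).filter (fun n : ℕ =>
              ε * ((α / Real.log 2) * Real.log (n : ℝ)) <
                |((sInf {k : ℕ | Nat.totient^[k] n = 1} : ℕ) : ℝ)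
                  - (α / Real.log 2) * Real.log (n : ℝ)|)).card : ℝ)
            / (N : ℝ))
        atTop (𝓝 0)

end Pool.Agent.Helper94.Tot
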