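import Pool.Agent.Helper94.Tot.Soft8
import Pool.Agent.Helper14.Tot.BL
import Pool.Agent.Helper27.Tot.PA
import Pool.Agent.Helper31.Tot.MP
import Pool.Agent.Helper33.Tot.BH
import Pool.Agent.Helper41.Tot.TR
import Pool.Agent.Helper5.Tot.Var
import Pool.Agent.Helper52.Tot.D3
import Pool.Agent.Helper52.Tot.Err
import Pool.Agent.Helper52.Tot.TW
import Pool.Agent.Helper64.Tot.N2
import Pool.Agent.Helper65.Tot.N1
import Pool.Agent.Helper69.Tot.Cnt
import Pool.Agent.Helper75.Tot.M1
import Pool.Agent.Helper82.Tot.Y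
import Pool.Agent.Helper88.Tot.MX
import Pool.Agent.Helper89.Tot.GS
import Pool.Agent.Helper90.Tot.BT
import Pool.Agent.Helper90.Tot.Sum
import Pool.Agent.Helper96.Tot.NB

/-!
# Normal order of the iterated totient class: assembly
-/

set_option autoImplicit false

open Finset Filter Topology

namespace Pool.Agent.Helper94.Tot

theorem allGS : StmtGS := Pool.Agent.Helper89.Tot.pf_GS
theorem allMP : StmtMP := Pool.Agent.Helper31.Tot.pf_MP
theorem allSz : StmtSz := Pool.Agent.Helper31.Tot.pf_Sz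
theorem allM1 : StmtM1 := Pool.Agent.Helper75.Tot.pf_M1
theorem allBT : StmtBT := Pool.Agent.Helper90.Tot.pf_BT allGS allMP allSz
theorem allTW : StmtTW := Pool.Agent.Helper52.Tot.pf_TW allGS allMP allSz
theorem allD3 : StmtD3 := Pool.Agent.Helper52.Tot.pf_D3 allGS allSz
theorem allBL : StmtBL := Pool.Agent.Helper14.Tot.pf_BL Pool.Agent.Helper33.Tot.pf_BH
  (Pool.Agent.Helper27.Tot.pf_PA allMP) Pool.Agent.Helper90.Tot.pf_Sum
  (Pool.Agent.Helper52.Tot.pf_Err (Pool.Agent.Helper5.Tot.pf_Var Pool.Agent.Helper69.Tot.pf_Cnt))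
theorem allNB : StmtNB := Pool.Agent.Helper96.Tot.pf_NB allBL allTW
theorem allN1 : StmtN1 := Pool.Agent.Helper65.Tot.pf_N1 allNB allBT
theorem allN2 : StmtN2 := Pool.Agent.Helper64.Tot.pf_N2 allNB allBT allM1
theorem allMX : StmtMX := Pool.Agent.Helper88.Tot.pf_MX allBT
theorem allMain : StmtMain := pf_Main allN1 allN2 allMX allM1 allD3

/-- the normal order theorem -/
theorem final : ∃ α : ℝ, 0 < α ∧ ∀ ε : ℝ, 0 < ε →
      Tendsto
        (fun N : ℕ =>
          (((Finset.range N).filter (fun n : ℕ =>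
              ε * (α * Real.log (n : ℝ)) <
                |((sInf {k : ℕ | Nat.totient^[k] n = 1} : ℕ) : ℝ) - α * Real.log (n : ℝ)|)).card : ℝ)
            / (N : ℝ))
        atTop (𝓝 0) := by
  obtain ⟨h01, hs, hs', hlow⟩ := Pool.Agent.Helper82.Tot.pf_Y
  obtain ⟨α, hα, hconv⟩ := allMain yy h01 hs hs'
  have hα0 : 0 < α := by
    rcases hα.eq_or_lt with h | h
    · exfalso
      obtain ⟨CM, hCM, hM⟩ := allM1
      have hone := LL_one_tendsto hM
      set c : ℝ := Real.log 2 / Real.log 3 with hc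
      have hc0 : 0 < c := div_pos (Real.log_pos (by norm_num)) (Real.log_pos (by norm_num))
      have h2 := hone.const_mul c
      have h3 : c * 1 ≤ 0 := by
        apply le_of_tendsto_of_tendsto' h2 hconv
        intro n
        show c * (AA (fun _ => 1) n / n) ≤ AA (fun p => |yy p - α|) n / n
        rw [mul_div_assoc', ← AA_smul]
        apply div_le_div_of_nonneg_right _ (Nat.cast_nonneg n)
        unfold AA
        apply Finset.sum_le_sum
        intro p hp
        apply mul_le_mul_of_nonneg_right _ (div_nonneg (lg_nonneg p) (Nat.cast_nonneg p))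
        have h4 := hlow p (mem_PN.1 hp).2
        show c * 1 ≤ |yy p - α|
        rw [← h, sub_zero, abs_of_nonneg (h01 p).1, mul_one]
        exact h4
      linarith
    · exact h
  refine ⟨α / Real.log 2, div_pos hα0 (Real.log_pos (by norm_num)), ?_⟩
  exact Pool.Agent.Helper41.Tot.pf_TR Pool.Agent.Helper82.Tot.pf_Y α hα0 hconv

end Pool.Agent.Helper94.Tot
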