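import Pool.Agent.Helper94.Tot.Goals

/-!
# Normal order of the iterated totient class: basic lemmas for the convergence theorem
-/

set_option autoImplicit false

open Finset Filter Topology

namespace Pool.Agent.Helper94.Tot

theorem lg_nonneg (n : ℕ) : 0 ≤ lg n := by
  unfold lg
  rcases Nat.eq_zero_or_pos n with h | h
  · subst h; simp
  · exact Real.logb_nonneg (by norm_num) (by exact_mod_cast h)

theorem lg_le_of_le {p n : ℕ} (hp : 1 ≤ p) (h : p ≤ 2 ^ n) : lg p ≤ n := by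
  unfold lg
  have h1 : Real.logb 2 (p : ℝ) ≤ Real.logb 2 ((2 : ℝ) ^ n) :=
    Real.logb_le_logb_of_le (by norm_num) (by exact_mod_cast hp) (by exact_mod_cast h)
  rwa [Real.logb_pow, Real.logb_self_eq_one (by norm_num), mul_one] at h1

theorem le_lg_of_le {p n : ℕ} (h : 2 ^ n ≤ p) : (n : ℝ) ≤ lg p := by
  unfold lg
  have h1 : Real.logb 2 ((2 : ℝ) ^ n) ≤ Real.logb 2 (p : ℝ) :=
    Real.logb_le_logb_of_le (by norm_num) (by positivity) (by exact_mod_cast h)
  rwa [Real.logb_pow, Real.logb_self_eq_one (by norm_num), mul_one] at h1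

theorem lg_pos {p : ℕ} (hp : 2 ≤ p) : 1 ≤ lg p := by
  have := le_lg_of_le (p := p) (n := 1) (by simpa using hp)
  simpa using this

theorem mem_PN {p n : ℕ} : p ∈ PN n ↔ p ≤ 2 ^ n ∧ p.Prime := by
  unfold PN
  rw [Finset.mem_filter, Finset.mem_Icc]
  constructor
  · rintro ⟨⟨_, h⟩, hp⟩; exact ⟨h, hp⟩
  · rintro ⟨h, hp⟩; exact ⟨⟨hp.one_lt.le, h⟩, hp⟩

theorem mem_DB {p n : ℕ} : p ∈ DB n ↔ (2 ^ n < p ∧ p ≤ 2 ^ (n + 1)) ∧ p.Prime := by
  unfold DB
  rw [Finset.mem_filter, Finset.mem_Ioc]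

theorem PN_mono {m n : ℕ} (h : m ≤ n) : PN m ⊆ PN n := by
  intro p hp
  rw [mem_PN] at hp ⊢
  exact ⟨hp.1.trans (Nat.pow_le_pow_right (by norm_num) h), hp.2⟩

theorem PN_succ (n : ℕ) : PN (n + 1) = PN n ∪ DB n := by
  ext p
  rw [Finset.mem_union, mem_PN, mem_PN, mem_DB]
  constructor
  · rintro ⟨h, hp⟩
    rcases Nat.lt_or_ge (2 ^ n) p with h1 | h1
    · exact Or.inr ⟨⟨h1, h⟩, hp⟩
    · exact Or.inl ⟨h1, hp⟩
  · rintro (⟨h, hp⟩ | ⟨⟨_, h⟩, hp⟩)
    · exact ⟨h.trans (Nat.pow_le_pow_right (by norm_num) (by omega)), hp⟩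
    · exact ⟨h, hp⟩

theorem PN_disj (n : ℕ) : Disjoint (PN n) (DB n) := by
  rw [Finset.disjoint_left]
  intro p hp hp'
  rw [mem_PN] at hp
  rw [mem_DB] at hp'
  omega

theorem sum_PN_succ (n : ℕ) (F : ℕ → ℝ) :
    ∑ p ∈ PN (n + 1), F p = ∑ p ∈ PN n, F p + ∑ p ∈ DB n, F p := by
  rw [PN_succ, Finset.sum_union (PN_disj n)]

theorem PN_zero : PN 0 = ∅ := by
  ext p
  rw [mem_PN]
  constructor
  · rintro ⟨h, hp⟩
    have := hp.two_le
    simp at h
    omega
  · intro h; simp at h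

theorem lg_DB {p n : ℕ} (h : p ∈ DB n) : (n : ℝ) ≤ lg p ∧ lg p ≤ n + 1 := by
  rw [mem_DB] at h
  refine ⟨le_lg_of_le h.1.1.le, ?_⟩
  have := lg_le_of_le (p := p) (n := n + 1) h.2.one_lt.le h.1.2
  push_cast at this
  exact this

theorem lg_PN {p n : ℕ} (h : p ∈ PN n) : lg p ≤ n := by
  rw [mem_PN] at h
  exact lg_le_of_le h.2.one_lt.le h.1

theorem inv_DB {p n : ℕ} (h : p ∈ DB n) : 1 / (p : ℝ) ≤ 1 / 2 ^ n := by
  rw [mem_DB] at h
  apply one_div_le_one_div_of_le (by positivity)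
  exact_mod_cast h.1.1.le

theorem AA_nonneg {g : ℕ → ℝ} (hg : ∀ p, 0 ≤ g p) (n : ℕ) : 0 ≤ AA g n :=
  Finset.sum_nonneg (fun p _ => mul_nonneg (hg p) (div_nonneg (lg_nonneg p) (Nat.cast_nonneg p)))

theorem AA_mono {g : ℕ → ℝ} (hg : ∀ p, 0 ≤ g p) {m n : ℕ} (h : m ≤ n) : AA g m ≤ AA g n :=
  Finset.sum_le_sum_of_subset_of_nonneg (PN_mono h)
    (fun p _ _ => mul_nonneg (hg p) (div_nonneg (lg_nonneg p) (Nat.cast_nonneg p)))

theorem AA_le_AA {g h : ℕ → ℝ} (hgh : ∀ p, g p ≤ h p) (n : ℕ) : AA g n ≤ AA h n :=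
  Finset.sum_le_sum (fun p _ => mul_le_mul_of_nonneg_right (hgh p)
    (div_nonneg (lg_nonneg p) (Nat.cast_nonneg p)))

theorem AA_add (g h : ℕ → ℝ) (n : ℕ) : AA (fun p => g p + h p) n = AA g n + AA h n := by
  unfold AA
  rw [← Finset.sum_add_distrib]
  exact Finset.sum_congr rfl (fun p _ => by ring)

theorem AA_smul (c : ℝ) (g : ℕ → ℝ) (n : ℕ) : AA (fun p => c * g p) n = c * AA g n := by
  unfold AA
  rw [Finset.mul_sum]
  exact Finset.sum_congr rfl (fun p _ => by ring)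

theorem AA_succ (g : ℕ → ℝ) (n : ℕ) :
    AA g (n + 1) = AA g n + ∑ p ∈ DB n, g p * (lg p / p) := sum_PN_succ n _

/-- truncated error sum -/
noncomputable def Er (e : ℕ → ℝ) (n : ℕ) : ℝ := ∑ p ∈ PN n, min (e p) (lg p) / p

theorem Er_term_nonneg {e : ℕ → ℝ} (he : ∀ p, 0 ≤ e p) (p : ℕ) : 0 ≤ min (e p) (lg p) / p :=
  div_nonneg (le_min (he p) (lg_nonneg p)) (Nat.cast_nonneg p)

theorem Er_nonneg {e : ℕ → ℝ} (he : ∀ p, 0 ≤ e p) (n : ℕ) : 0 ≤ Er e n :=
  Finset.sum_nonneg (fun p _ => Er_term_nonneg he p)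

theorem Er_mono {e : ℕ → ℝ} (he : ∀ p, 0 ≤ e p) {m n : ℕ} (h : m ≤ n) : Er e m ≤ Er e n :=
  Finset.sum_le_sum_of_subset_of_nonneg (PN_mono h) (fun p _ _ => Er_term_nonneg he p)

theorem Er_succ (e : ℕ → ℝ) (n : ℕ) :
    Er e (n + 1) = Er e n + ∑ p ∈ DB n, min (e p) (lg p) / p := sum_PN_succ n _

/-- admissible pairs -/
structure Adms (a e : ℕ → ℝ) : Prop where
  nonneg : ∀ p, 0 ≤ a p
  le_one : ∀ p, a p ≤ 1
  err : ∀ p, 0 ≤ e p
  sub : ∀ p, p.Prime → lg p * a p ≤ ∑ q ∈ (p - 1).primeFactors, lg q * a q + e p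

/-- normalized average -/
noncomputable def LL (a : ℕ → ℝ) (n : ℕ) : ℝ := AA a n / n

/-- normalized error -/
noncomputable def ff (e : ℕ → ℝ) (n : ℕ) : ℝ := 1 / √n + Er e n / n

/-- the sum of the logarithms of the distinct prime factors of `p - 1` -/
theorem sum_lg_le {p : ℕ} (hp : p.Prime) : ∑ q ∈ (p - 1).primeFactors, lg q ≤ lg p := by
  have h2 := hp.two_le
  have h0 : p - 1 ≠ 0 := by omega
  have h1 : ∑ q ∈ (p - 1).primeFactors, lg q = lg (∏ q ∈ (p - 1).primeFactors, q) := by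
    unfold lg
    rw [Nat.cast_prod, Real.logb, Real.log_prod]
    · rw [Finset.sum_div]
      rfl
    · intro q hq
      exact Nat.cast_ne_zero.2 (Nat.prime_of_mem_primeFactors hq).ne_zero
  rw [h1]
  unfold lg
  apply Real.logb_le_logb_of_le (by norm_num)
  · have : 0 < ∏ q ∈ (p - 1).primeFactors, q :=
      Finset.prod_pos (fun q hq => (Nat.prime_of_mem_primeFactors hq).pos)
    exact_mod_cast this
  · have : ∏ q ∈ (p - 1).primeFactors, q ≤ p - 1 :=
      Nat.le_of_dvd (by omega) (Nat.prod_primeFactors_dvd (p - 1))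
    have h3 : ∏ q ∈ (p - 1).primeFactors, q ≤ p := by omega
    exact_mod_cast h3

/-- truncation keeps admissibility -/
theorem Adms.trunc {a e : ℕ → ℝ} (h : Adms a e) {g : ℝ} (hg : 0 ≤ g) :
    Adms (fun p => max (a p - g) 0) e := by
  refine ⟨fun p => le_max_right _ _, fun p => ?_, h.err, fun p hp => ?_⟩
  · apply max_le _ zero_le_one
    linarith [h.le_one p]
  · have h1 := h.sub p hp
    have h2 := sum_lg_le hp
    have h3 : 0 ≤ ∑ q ∈ (p - 1).primeFactors, lg q * max (a q - g) 0 :=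
      Finset.sum_nonneg (fun q _ => mul_nonneg (lg_nonneg q) (le_max_right _ _))
    have h4 : ∑ q ∈ (p - 1).primeFactors, lg q * a q ≤
        ∑ q ∈ (p - 1).primeFactors, lg q * max (a q - g) 0 +
          g * ∑ q ∈ (p - 1).primeFactors, lg q := by
      rw [Finset.mul_sum, ← Finset.sum_add_distrib]
      apply Finset.sum_le_sum
      intro q _
      have := le_max_left (a q - g) 0
      nlinarith [lg_nonneg q]
    rcases le_total (a p - g) 0 with h5 | h5
    · rw [max_eq_right h5, mul_zero]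
      exact add_nonneg h3 (h.err p)
    · rw [max_eq_left h5]
      have h6 : g * ∑ q ∈ (p - 1).primeFactors, lg q ≤ g * lg p :=
        mul_le_mul_of_nonneg_left h2 hg
      nlinarith

theorem pair_ge {ι : Type*} [DecidableEq ι] (s : Finset ι) (x : ι → ℝ) (hx : ∀ i ∈ s, 0 ≤ x i)
    {i0 : ι} (hi0 : i0 ∈ s) (hmax : ∀ i ∈ s, x i ≤ x i0) :
    (∑ i ∈ s.erase i0, x i) ^ 2 ≤ ∑ z ∈ s.offDiag, x z.1 * x z.2 := by
  have h1 : ∑ z ∈ s.offDiag, x z.1 * x z.2 = ∑ i ∈ s, x i * ∑ j ∈ s.erase i, x j := by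
    have e1 : ∀ i ∈ s, x i * ∑ j ∈ s.erase i, x j = x i * ∑ j ∈ s, x j - x i * x i := by
      intro i hi
      rw [← Finset.add_sum_erase s x hi]
      ring
    rw [Finset.sum_congr rfl e1, Finset.sum_sub_distrib, ← Finset.sum_mul]
    have e2 : ∑ z ∈ s ×ˢ s, x z.1 * x z.2 = (∑ i ∈ s, x i) * ∑ i ∈ s, x i := by
      rw [Finset.sum_product, Finset.sum_mul_sum]
    have e3 : s.diag ∪ s.offDiag = s ×ˢ s := Finset.diag_union_offDiag s
    rw [← e2, ← e3, Finset.sum_union (Finset.disjoint_diag_offDiag s), Finset.sum_diag]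
    ring
  rw [h1, sq, Finset.sum_mul]
  calc ∑ i ∈ s.erase i0, x i * ∑ j ∈ s.erase i0, x j
      ≤ ∑ i ∈ s.erase i0, x i * ∑ j ∈ s.erase i, x j := by
        apply Finset.sum_le_sum
        intro i hi
        have his := Finset.mem_of_mem_erase hi
        apply mul_le_mul_of_nonneg_left _ (hx i his)
        have a1 := Finset.add_sum_erase s x his
        have a2 := Finset.add_sum_erase s x hi0
        have a3 := hmax i his
        linarith
    _ ≤ ∑ i ∈ s, x i * ∑ j ∈ s.erase i, x j := by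
        apply Finset.sum_le_sum_of_subset_of_nonneg (Finset.erase_subset _ _)
        intro i hi _
        apply mul_nonneg (hx i hi)
        exact Finset.sum_nonneg (fun j hj => hx j (Finset.mem_of_mem_erase hj))

theorem pow_aux {r : ℕ} (hr : 1 ≤ r) : (1 + 1 / (r : ℝ)) ^ r ≤ 3 := by
  have hr0 : (0 : ℝ) < r := by exact_mod_cast hr
  have h1 : 1 + 1 / (r : ℝ) ≤ Real.exp (1 / r) := by
    have := Real.add_one_le_exp (1 / (r : ℝ))
    linarith
  calc (1 + 1 / (r : ℝ)) ^ r ≤ (Real.exp (1 / r)) ^ r :=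
        pow_le_pow_left₀ (by positivity) h1 r
    _ = Real.exp 1 := by
        rw [← Real.exp_nat_mul]
        congr 1
        field_simp
    _ ≤ 3 := by
        have := Real.exp_one_lt_d9
        linarith

/-- the pointwise inequality -/
theorem pw {ι : Type*} [DecidableEq ι] (s : Finset ι) (x : ι → ℝ) (hx : ∀ i ∈ s, 0 ≤ x i)
    {u e l : ℝ} (hu : 0 ≤ u) (hul : u ≤ l) (he : 0 ≤ e) (h : u ≤ ∑ i ∈ s, x i + e) {r : ℕ}
    (hr : 2 ≤ r) :
    u ^ r ≤ 3 * ∑ i ∈ s, x i ^ r + (2 * r + 2) ^ 2 * l ^ (r - 2) * ∑ z ∈ s.offDiag, x z.1 * x z.2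
      + (2 * r + 2) * l ^ (r - 1) * min e l := by
  have hl : 0 ≤ l := hu.trans hul
  set ε := min e l with hε
  have hε0 : 0 ≤ ε := le_min he hl
  have h' : u ≤ ∑ i ∈ s, x i + ε := by
    rcases le_total e l with h1 | h1
    · rw [hε, min_eq_left h1]; exact h
    · rw [hε, min_eq_right h1]
      have : 0 ≤ ∑ i ∈ s, x i := Finset.sum_nonneg hx
      linarith
  have hS : 0 ≤ ∑ i ∈ s, x i ^ r := Finset.sum_nonneg (fun i hi => pow_nonneg (hx i hi) _)
  have hP : 0 ≤ ∑ z ∈ s.offDiag, x z.1 * x z.2 := by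
    apply Finset.sum_nonneg
    intro z hz
    rw [Finset.mem_offDiag] at hz
    exact mul_nonneg (hx _ hz.1) (hx _ hz.2.1)
  have hr0 : (2 : ℝ) ≤ r := by exact_mod_cast hr
  have hT1 : 0 ≤ (2 * (r : ℝ) + 2) ^ 2 * l ^ (r - 2) * ∑ z ∈ s.offDiag, x z.1 * x z.2 := by
    positivity
  have hT2 : 0 ≤ (2 * (r : ℝ) + 2) * l ^ (r - 1) * ε := by positivity
  have hup1 : u ^ (r - 1) ≤ l ^ (r - 1) := pow_le_pow_left₀ hu hul _
  have hup2 : u ^ (r - 2) ≤ l ^ (r - 2) := pow_le_pow_left₀ hu hul _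
  have e1 : u ^ r = u ^ (r - 1) * u := by
    rw [← pow_succ]; congr 1; omega
  have e2 : u ^ r = u ^ (r - 2) * u ^ 2 := by
    rw [← pow_add]; congr 1; omega
  rcases s.eq_empty_or_nonempty with hs | hs
  · subst hs
    have h1 : u ≤ ε := by simpa using h'
    have h2 : u ^ r ≤ (2 * (r : ℝ) + 2) * l ^ (r - 1) * ε := by
      rw [e1]
      calc u ^ (r - 1) * u ≤ l ^ (r - 1) * ε := mul_le_mul hup1 h1 hu (by positivity)
        _ ≤ (2 * (r : ℝ) + 2) * (l ^ (r - 1) * ε) :=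
            le_mul_of_one_le_left (by positivity) (by linarith)
        _ = _ := by ring
    linarith
  · obtain ⟨i0, hi0, hmax⟩ := Finset.exists_max_image s x hs
    set R := ∑ i ∈ s.erase i0, x i with hR
    have hR0 : 0 ≤ R := Finset.sum_nonneg (fun i hi => hx i (Finset.mem_of_mem_erase hi))
    have hsum : ∑ i ∈ s, x i = x i0 + R := (Finset.add_sum_erase s x hi0).symm
    have hm0 : 0 ≤ x i0 := hx i0 hi0
    rw [hsum] at h'
    rcases le_or_gt ((r : ℝ) * (R + ε)) (x i0) with hA | hB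
    · have h1 : u ≤ x i0 * (1 + 1 / r) := by
        have : R + ε ≤ x i0 / r := by
          rw [le_div_iff₀ (by linarith)]
          linarith
        calc u ≤ x i0 + (R + ε) := by linarith
          _ ≤ x i0 + x i0 / r := by linarith
          _ = _ := by ring
      have h2 : u ^ r ≤ 3 * x i0 ^ r := by
        calc u ^ r ≤ (x i0 * (1 + 1 / r)) ^ r := pow_le_pow_left₀ hu h1 r
          _ = (1 + 1 / (r : ℝ)) ^ r * x i0 ^ r := by rw [mul_pow]; ring
          _ ≤ 3 * x i0 ^ r :=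
            mul_le_mul_of_nonneg_right (pow_aux (by omega)) (pow_nonneg hm0 _)
      have h3 : x i0 ^ r ≤ ∑ i ∈ s, x i ^ r :=
        Finset.single_le_sum (f := fun i => x i ^ r) (fun i hi => pow_nonneg (hx i hi) _) hi0
      linarith
    · have h1 : u ≤ (r + 1) * (R + ε) := by linarith
      rcases le_total R ε with hc | hc
      · have h2 : u ≤ (2 * r + 2) * ε := by nlinarith
        have h3 : u ^ r ≤ (2 * (r : ℝ) + 2) * l ^ (r - 1) * ε := by
          rw [e1]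
          calc u ^ (r - 1) * u ≤ l ^ (r - 1) * ((2 * r + 2) * ε) :=
                mul_le_mul hup1 h2 hu (by positivity)
            _ = _ := by ring
        linarith
      · have h2 : u ≤ (2 * r + 2) * R := by nlinarith
        have h4 := pair_ge s x hx hi0 hmax
        have h3 : u ^ r ≤ (2 * (r : ℝ) + 2) ^ 2 * l ^ (r - 2) *
            ∑ z ∈ s.offDiag, x z.1 * x z.2 := by
          rw [e2]
          calc u ^ (r - 2) * u ^ 2 ≤ l ^ (r - 2) * ((2 * r + 2) * R) ^ 2 :=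
                mul_le_mul hup2 (pow_le_pow_left₀ hu h2 2) (by positivity) (by positivity)
            _ = (2 * (r : ℝ) + 2) ^ 2 * l ^ (r - 2) * R ^ 2 := by ring
            _ ≤ _ := mul_le_mul_of_nonneg_left h4 (by positivity)
        linarith

/-- discrete Grönwall inequality -/
theorem gronwall (T h : ℕ → ℝ) (k : ℕ) (hk : 1 ≤ k)
    (hT : ∀ n, k ≤ n → T (n + 1) ≤ (((n : ℝ) + 1) / n) ^ k * (T n + h n)) {m n : ℕ} (hm : k ≤ m)
    (hmn : m ≤ n) :
    T n / (n : ℝ) ^ k ≤ T m / (m : ℝ) ^ k + ∑ i ∈ Ico m n, h i / (i : ℝ) ^ k := by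
  induction n, hmn using Nat.le_induction with
  | base => simp
  | succ n hmn ih =>
    rw [Finset.sum_Ico_succ_top hmn]
    have hn0 : (0 : ℝ) < n := by exact_mod_cast (by omega : 0 < n)
    have h1 := hT n (by omega)
    have h2 : T (n + 1) / ((n : ℝ) + 1) ^ k ≤ T n / (n : ℝ) ^ k + h n / (n : ℝ) ^ k := by
      rw [div_le_iff₀ (by positivity)]
      calc T (n + 1) ≤ (((n : ℝ) + 1) / n) ^ k * (T n + h n) := h1
        _ = _ := by rw [div_pow]; field_simp
    push_cast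
    linarith

/-- from a differential inequality to the hypothesis of the Grönwall lemma -/
theorem gronwall_step {c t t' h : ℝ} {n k : ℕ} (hk : 2 * c ≤ k) (hc : 0 ≤ c) (hn : (k : ℝ) ≤ n)
    (hk1 : 1 ≤ k) (ht : 0 ≤ t) (hh : 0 ≤ h) (h1 : t' ≤ t + c / n * t' + h) :
    t' ≤ (((n : ℝ) + 1) / n) ^ k * (t + 2 * h) := by
  have hk0 : (1 : ℝ) ≤ k := by exact_mod_cast hk1
  have hn0 : (0 : ℝ) < n := by linarith
  set x := c / (n : ℝ) with hx
  have hx0 : 0 ≤ x := by positivity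
  have hx1 : x ≤ 1 / 2 := by
    rw [hx, div_le_iff₀ hn0]
    linarith
  have h2 : t' * (1 - x) ≤ t + h := by linarith
  have h3 : t' ≤ (1 + 2 * x) * (t + h) := by
    have h4 : t' * (1 - x) ≤ (1 + 2 * x) * (t + h) * (1 - x) := by
      have h5 : 1 ≤ (1 + 2 * x) * (1 - x) := by nlinarith
      have h6 : t + h ≤ (t + h) * ((1 + 2 * x) * (1 - x)) :=
        le_mul_of_one_le_right (by linarith) h5
      calc t' * (1 - x) ≤ t + h := h2
        _ ≤ _ := h6
        _ = _ := by ring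
    exact le_of_mul_le_mul_right h4 (by linarith)
  have h4 : 1 + 2 * x ≤ (((n : ℝ) + 1) / n) ^ k := by
    have h5 : ((n : ℝ) + 1) / n = 1 + 1 / n := by field_simp
    rw [h5]
    have h6 : 1 + (k : ℝ) * (1 / n) ≤ (1 + 1 / (n : ℝ)) ^ k :=
      one_add_mul_le_pow (by have : 0 ≤ 1 / (n : ℝ) := by positivity
                             linarith) k
    have h7 : 2 * x ≤ (k : ℝ) * (1 / n) := by
      rw [hx]
      calc 2 * (c / (n : ℝ)) = (2 * c) * (1 / n) := by ring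
        _ ≤ k * (1 / n) := mul_le_mul_of_nonneg_right hk (by positivity)
    linarith
  calc t' ≤ (1 + 2 * x) * (t + h) := h3
    _ ≤ (((n : ℝ) + 1) / n) ^ k * (t + 2 * h) := by
      apply mul_le_mul h4 (by linarith) (by linarith) (by positivity)

end Pool.Agent.Helper94.Tot
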