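import Pool.Agent.Helper94.Tot.Soft1

/-!
# Normal order of the iterated totient class: the two basic recursive inequalities
-/

set_option autoImplicit false

open Finset Filter Topology

namespace Pool.Agent.Helper94.Tot

/-- moments -/
noncomputable def Tm (a : ℕ → ℝ) (r n : ℕ) : ℝ := ∑ p ∈ PN n, (lg p * a p) ^ r / p

theorem Tm_succ (a : ℕ → ℝ) (r n : ℕ) :
    Tm a r (n + 1) = Tm a r n + ∑ p ∈ DB n, (lg p * a p) ^ r / p := sum_PN_succ n _

theorem x_nonneg {a e : ℕ → ℝ} (h : Adms a e) (q : ℕ) : 0 ≤ lg q * a q :=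
  mul_nonneg (lg_nonneg q) (h.nonneg q)

theorem x_le {a e : ℕ → ℝ} (h : Adms a e) (q : ℕ) : lg q * a q ≤ lg q := by
  have := mul_le_mul_of_nonneg_left (h.le_one q) (lg_nonneg q)
  simpa using this

theorem Tm_nonneg {a e : ℕ → ℝ} (h : Adms a e) (r n : ℕ) : 0 ≤ Tm a r n :=
  Finset.sum_nonneg (fun p _ => div_nonneg (pow_nonneg (x_nonneg h p) _) (Nat.cast_nonneg p))

theorem card_PN_le (n : ℕ) : ((PN n).card : ℝ) ≤ 2 ^ n := by
  have h1 : (PN n).card ≤ (Icc 1 (2 ^ n)).card := Finset.card_filter_le _ _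
  rw [Nat.card_Icc, Nat.add_sub_cancel] at h1
  have h2 : (PN n).card ≤ 2 ^ n := h1
  exact_mod_cast h2

theorem Tm_le {a e : ℕ → ℝ} (h : Adms a e) (r n : ℕ) : Tm a r n ≤ (n : ℝ) ^ r * 2 ^ n := by
  calc Tm a r n ≤ ∑ p ∈ PN n, (n : ℝ) ^ r := by
        apply Finset.sum_le_sum
        intro p hp
        have hp2 := (mem_PN.1 hp).2.two_le
        have h1 : (1 : ℝ) ≤ p := by exact_mod_cast (by omega : 1 ≤ p)
        have h2 : lg p * a p ≤ n := (x_le h p).trans (lg_PN hp)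
        calc (lg p * a p) ^ r / p ≤ (lg p * a p) ^ r := div_le_self (pow_nonneg (x_nonneg h p) _) h1
          _ ≤ (n : ℝ) ^ r := pow_le_pow_left₀ (x_nonneg h p) h2 r
    _ = (PN n).card * (n : ℝ) ^ r := by rw [Finset.sum_const, nsmul_eq_mul]
    _ ≤ 2 ^ n * (n : ℝ) ^ r := mul_le_mul_of_nonneg_right (card_PN_le n) (by positivity)
    _ = _ := by ring

theorem AA_le_triv {a e : ℕ → ℝ} (h : Adms a e) (n : ℕ) : AA a n ≤ (n : ℝ) * 2 ^ n := by
  have h1 : AA a n = Tm a 1 n := by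
    unfold AA Tm
    apply Finset.sum_congr rfl
    intro p _
    ring
  rw [h1]
  simpa using Tm_le h 1 n

/-- the moment recursion -/
theorem moment_step {C1 C2 : ℝ} (hC1 : 0 < C1) (hC2 : 0 < C2)
    (h1 : ∀ n : ℕ, 1 ≤ n → ∀ (W : ℕ → ℝ) (B : ℝ), (∀ q, 0 ≤ W q) → (∀ q ∈ PN (n + 1), W q ≤ B) →
      ∑ p ∈ DB n, ∑ q ∈ (p - 1).primeFactors, W q
        ≤ C1 * (2 ^ n / n) * ∑ q ∈ PN (n + 1), W q / q + C1 * B * 2 ^ n / (n * √n))
    (h2 : ∀ n : ℕ, 1 ≤ n → ∀ g : ℕ → ℝ, (∀ q, 0 ≤ g q ∧ g q ≤ 1) →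
      ∑ p ∈ DB n, ∑ x ∈ (p - 1).primeFactors.offDiag, (lg x.1 * g x.1) * (lg x.2 * g x.2)
        ≤ C2 * (2 ^ n / n) * (AA g (n + 1)) ^ 2 + C2 * n * 2 ^ n / √n)
    (k : ℕ) : ∃ D : ℝ, 0 < D ∧ ∀ a e, Adms a e → ∀ n : ℕ, 1 ≤ n →
      Tm a (k + 3) (n + 1) ≤ Tm a (k + 3) n + (3 * C1) / n * Tm a (k + 3) (n + 1)
        + D * (((n : ℝ) + 1) ^ (k + 2) / √n + ((n : ℝ) + 1) ^ k * AA a (n + 1) ^ 2
          + ((n : ℝ) + 1) ^ (k + 2) * ∑ p ∈ DB n, min (e p) (lg p) / p) := by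
  set R : ℝ := 2 * ((k + 3 : ℕ) : ℝ) + 2 with hR
  have hR0 : 0 < R := by positivity
  refine ⟨6 * C1 + 2 * (R ^ 2 * C2) + R, by positivity, ?_⟩
  intro a e h n hn
  have hn0 : (1 : ℝ) ≤ n := by exact_mod_cast hn
  have hpow : (0 : ℝ) < 2 ^ n := by positivity
  have hsq : 0 < √(n : ℝ) := Real.sqrt_pos.2 (by linarith)
  set E := ∑ p ∈ DB n, min (e p) (lg p) / p with hE
  have hE0 : 0 ≤ E := Finset.sum_nonneg (fun p _ => Er_term_nonneg h.err p)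
  -- pointwise
  have hpt : ∀ p ∈ DB n, (lg p * a p) ^ (k + 3) / p ≤
      3 * (1 / 2 ^ n) * ∑ q ∈ (p - 1).primeFactors, (lg q * a q) ^ (k + 3)
      + R ^ 2 * ((n : ℝ) + 1) ^ (k + 1) * (1 / 2 ^ n) *
          ∑ x ∈ (p - 1).primeFactors.offDiag, (lg x.1 * a x.1) * (lg x.2 * a x.2)
      + R * ((n : ℝ) + 1) ^ (k + 2) * (min (e p) (lg p) / p) := by
    intro p hp
    obtain ⟨hl1, hl2⟩ := lg_DB hp
    have hpp := (mem_DB.1 hp).2
    have hp0 : (0 : ℝ) < p := by exact_mod_cast hpp.pos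
    have hinv := inv_DB hp
    have hq := pw (p - 1).primeFactors (fun q => lg q * a q) (fun q _ => x_nonneg h q)
      (x_nonneg h p) (x_le h p) (h.err p) (h.sub p hpp) (r := k + 3) (by omega)
    have e1 : k + 3 - 2 = k + 1 := by omega
    have e2 : k + 3 - 1 = k + 2 := by omega
    rw [e1, e2] at hq
    rw [← hR] at hq
    have hS : 0 ≤ ∑ q ∈ (p - 1).primeFactors, (lg q * a q) ^ (k + 3) :=
      Finset.sum_nonneg (fun q _ => pow_nonneg (x_nonneg h q) _)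
    have hP : 0 ≤ ∑ x ∈ (p - 1).primeFactors.offDiag, (lg x.1 * a x.1) * (lg x.2 * a x.2) :=
      Finset.sum_nonneg (fun x _ => mul_nonneg (x_nonneg h _) (x_nonneg h _))
    have hm0 : 0 ≤ min (e p) (lg p) := le_min (h.err p) (lg_nonneg p)
    have hlp : 0 ≤ lg p := lg_nonneg p
    have b1 : lg p ^ (k + 1) ≤ ((n : ℝ) + 1) ^ (k + 1) := pow_le_pow_left₀ hlp hl2 _
    have b2 : lg p ^ (k + 2) ≤ ((n : ℝ) + 1) ^ (k + 2) := pow_le_pow_left₀ hlp hl2 _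
    have c1 : (∑ q ∈ (p - 1).primeFactors, (lg q * a q) ^ (k + 3)) * (1 / (p : ℝ)) ≤
        (∑ q ∈ (p - 1).primeFactors, (lg q * a q) ^ (k + 3)) * (1 / 2 ^ n) :=
      mul_le_mul_of_nonneg_left hinv hS
    have c2 : (∑ x ∈ (p - 1).primeFactors.offDiag, (lg x.1 * a x.1) * (lg x.2 * a x.2)) *
        (lg p ^ (k + 1) * (1 / (p : ℝ))) ≤
        (∑ x ∈ (p - 1).primeFactors.offDiag, (lg x.1 * a x.1) * (lg x.2 * a x.2)) *
          (((n : ℝ) + 1) ^ (k + 1) * (1 / 2 ^ n)) := by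
      apply mul_le_mul_of_nonneg_left _ hP
      exact mul_le_mul b1 hinv (by positivity) (by positivity)
    have c3 : (min (e p) (lg p) * (1 / (p : ℝ))) * lg p ^ (k + 2) ≤
        (min (e p) (lg p) * (1 / (p : ℝ))) * ((n : ℝ) + 1) ^ (k + 2) :=
      mul_le_mul_of_nonneg_left b2 (mul_nonneg hm0 (by positivity))
    have c4 := mul_le_mul_of_nonneg_right hq (show (0 : ℝ) ≤ 1 / p by positivity)
    calc (lg p * a p) ^ (k + 3) / p = (lg p * a p) ^ (k + 3) * (1 / p) := by ring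
      _ ≤ _ := c4
      _ = 3 * ((∑ q ∈ (p - 1).primeFactors, (lg q * a q) ^ (k + 3)) * (1 / (p : ℝ)))
          + R ^ 2 * ((∑ x ∈ (p - 1).primeFactors.offDiag, (lg x.1 * a x.1) * (lg x.2 * a x.2)) *
        (lg p ^ (k + 1) * (1 / (p : ℝ))))
          + R * ((min (e p) (lg p) * (1 / (p : ℝ))) * lg p ^ (k + 2)) := by ring
      _ ≤ 3 * ((∑ q ∈ (p - 1).primeFactors, (lg q * a q) ^ (k + 3)) * (1 / 2 ^ n))
          + R ^ 2 * ((∑ x ∈ (p - 1).primeFactors.offDiag, (lg x.1 * a x.1) * (lg x.2 * a x.2)) *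
          (((n : ℝ) + 1) ^ (k + 1) * (1 / 2 ^ n)))
          + R * ((min (e p) (lg p) * (1 / (p : ℝ))) * ((n : ℝ) + 1) ^ (k + 2)) := by
        have d1 := mul_le_mul_of_nonneg_left c1 (show (0 : ℝ) ≤ 3 by norm_num)
        have d2 := mul_le_mul_of_nonneg_left c2 (show (0 : ℝ) ≤ R ^ 2 by positivity)
        have d3 := mul_le_mul_of_nonneg_left c3 hR0.le
        linarith only [c1, d2, d3]
      _ = _ := by ring
  have hsum := Finset.sum_le_sum hpt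
  rw [Finset.sum_add_distrib, Finset.sum_add_distrib, ← Finset.mul_sum, ← Finset.mul_sum,
    ← Finset.mul_sum, ← hE] at hsum
  have k1 := h1 n hn (fun q => (lg q * a q) ^ (k + 3)) (((n : ℝ) + 1) ^ (k + 3))
    (fun q => pow_nonneg (x_nonneg h q) _) (by
      intro q hq
      apply pow_le_pow_left₀ (x_nonneg h q)
      have := lg_PN hq
      push_cast at this
      exact (x_le h q).trans this)
  have k2 := h2 n hn a (fun q => ⟨h.nonneg q, h.le_one q⟩)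
  have e3 : ∑ q ∈ PN (n + 1), (lg q * a q) ^ (k + 3) / (q : ℝ) = Tm a (k + 3) (n + 1) := rfl
  rw [e3] at k1
  set S1 := ∑ p ∈ DB n, ∑ q ∈ (p - 1).primeFactors, (lg q * a q) ^ (k + 3) with hS1
  set S2 := ∑ p ∈ DB n, ∑ x ∈ (p - 1).primeFactors.offDiag, (lg x.1 * a x.1) * (lg x.2 * a x.2)
    with hS2
  set T := Tm a (k + 3) (n + 1) with hT
  have hT0 : 0 ≤ T := Tm_nonneg h _ _
  have hn1 : (1 : ℝ) / n ≤ 2 / (n + 1) := by
    rw [div_le_div_iff₀ (by linarith only [hn0]) (by linarith only [hn0])]; linarith only [hn0]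
  -- the first sum
  have m1 : 3 * (1 / 2 ^ n) * S1 ≤ 3 * C1 / n * T + 6 * C1 * (((n : ℝ) + 1) ^ (k + 2) / √n) := by
    have a1 := mul_le_mul_of_nonneg_left k1 (show (0 : ℝ) ≤ 3 * (1 / 2 ^ n) by positivity)
    have a2 : 3 * (1 / 2 ^ n) * (C1 * (2 ^ n / n) * T + C1 * ((n : ℝ) + 1) ^ (k + 3) * 2 ^ n /
        (n * √n)) = 3 * C1 / n * T + 3 * C1 * (((n : ℝ) + 1) ^ (k + 3) * (1 / n) / √n) := by
      field_simp
    rw [a2] at a1
    have a3 : ((n : ℝ) + 1) ^ (k + 3) * (1 / n) ≤ 2 * ((n : ℝ) + 1) ^ (k + 2) := by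
      calc ((n : ℝ) + 1) ^ (k + 3) * (1 / n) ≤ ((n : ℝ) + 1) ^ (k + 3) * (2 / (n + 1)) :=
            mul_le_mul_of_nonneg_left hn1 (by positivity)
        _ = _ := by field_simp; ring
    have a4 : ((n : ℝ) + 1) ^ (k + 3) * (1 / n) / √n ≤ 2 * ((n : ℝ) + 1) ^ (k + 2) / √n :=
      div_le_div_of_nonneg_right a3 hsq.le
    have a5 := mul_le_mul_of_nonneg_left a4 (show (0 : ℝ) ≤ 3 * C1 by positivity)
    calc _ ≤ _ := a1
      _ ≤ 3 * C1 / n * T + 3 * C1 * (2 * ((n : ℝ) + 1) ^ (k + 2) / √n) := by linarith only [a5]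
      _ = _ := by ring
  -- the second sum
  have m2 : R ^ 2 * ((n : ℝ) + 1) ^ (k + 1) * (1 / 2 ^ n) * S2 ≤
      2 * (R ^ 2 * C2) * (((n : ℝ) + 1) ^ (k + 2) / √n + ((n : ℝ) + 1) ^ k * AA a (n + 1) ^ 2) := by
    have a1 := mul_le_mul_of_nonneg_left k2
      (show (0 : ℝ) ≤ R ^ 2 * ((n : ℝ) + 1) ^ (k + 1) * (1 / 2 ^ n) by positivity)
    have a2 : R ^ 2 * ((n : ℝ) + 1) ^ (k + 1) * (1 / 2 ^ n) *
        (C2 * (2 ^ n / n) * AA a (n + 1) ^ 2 + C2 * n * 2 ^ n / √n) =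
        R ^ 2 * C2 * (((n : ℝ) + 1) ^ (k + 1) * (1 / n) * AA a (n + 1) ^ 2)
          + R ^ 2 * C2 * (((n : ℝ) + 1) ^ (k + 1) * n / √n) := by
      field_simp
    rw [a2] at a1
    have a3 : ((n : ℝ) + 1) ^ (k + 1) * (1 / n) ≤ 2 * ((n : ℝ) + 1) ^ k := by
      calc ((n : ℝ) + 1) ^ (k + 1) * (1 / n) ≤ ((n : ℝ) + 1) ^ (k + 1) * (2 / (n + 1)) :=
            mul_le_mul_of_nonneg_left hn1 (by positivity)
        _ = _ := by field_simp; ring
    have a4 : ((n : ℝ) + 1) ^ (k + 1) * n ≤ 2 * ((n : ℝ) + 1) ^ (k + 2) := by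
      have : ((n : ℝ) + 1) ^ (k + 2) = ((n : ℝ) + 1) ^ (k + 1) * (n + 1) := by ring
      rw [this]
      have : 0 ≤ ((n : ℝ) + 1) ^ (k + 1) := by positivity
      nlinarith only [this]
    have a5 := mul_le_mul_of_nonneg_right a3 (sq_nonneg (AA a (n + 1)))
    have a6 : ((n : ℝ) + 1) ^ (k + 1) * n / √n ≤ 2 * ((n : ℝ) + 1) ^ (k + 2) / √n :=
      div_le_div_of_nonneg_right a4 hsq.le
    have hRC : 0 ≤ R ^ 2 * C2 := by positivity
    have a7 := mul_le_mul_of_nonneg_left a5 hRC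
    have a8 := mul_le_mul_of_nonneg_left a6 hRC
    calc _ ≤ _ := a1
      _ ≤ R ^ 2 * C2 * (2 * ((n : ℝ) + 1) ^ k * AA a (n + 1) ^ 2) +
          R ^ 2 * C2 * (2 * ((n : ℝ) + 1) ^ (k + 2) / √n) := by linarith only [a7, a8]
      _ = _ := by ring
  have hfin : T = Tm a (k + 3) n + ∑ p ∈ DB n, (lg p * a p) ^ (k + 3) / p := Tm_succ a _ n
  set P1 := ((n : ℝ) + 1) ^ (k + 2) / √n with hP1
  set P2 := ((n : ℝ) + 1) ^ k * AA a (n + 1) ^ 2 with hP2
  set P3 := ((n : ℝ) + 1) ^ (k + 2) * E with hP3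
  have p1 : 0 ≤ P1 := by positivity
  have p2 : 0 ≤ P2 := by positivity
  have p3 : 0 ≤ P3 := by positivity
  have q1 : 0 ≤ C1 * P2 := by positivity
  have q2 : 0 ≤ C1 * P3 := by positivity
  have q3 : 0 ≤ (R ^ 2 * C2) * P3 := by positivity
  have q4 : 0 ≤ R * P1 := by positivity
  have q5 : 0 ≤ R * P2 := by positivity
  have e5 : (6 * C1 + 2 * (R ^ 2 * C2) + R) * (P1 + P2 + P3) =
      6 * C1 * P1 + 6 * (C1 * P2) + 6 * (C1 * P3) + 2 * (R ^ 2 * C2) * (P1 + P2)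
        + 2 * ((R ^ 2 * C2) * P3) + R * P1 + R * P2 + R * P3 := by ring
  have e6 : R * ((n : ℝ) + 1) ^ (k + 2) * E = R * P3 := by rw [hP3]; ring
  rw [e6] at hsum
  rw [e5]
  linarith only [hfin, m1, m2, hsum, q1, q2, q3, q4, q5]

/-- the growth inequality, one step -/
theorem growth_step {C1 : ℝ} (hC1 : 0 < C1)
    (h1 : ∀ n : ℕ, 1 ≤ n → ∀ (W : ℕ → ℝ) (B : ℝ), (∀ q, 0 ≤ W q) → (∀ q ∈ PN (n + 1), W q ≤ B) →
      ∑ p ∈ DB n, ∑ q ∈ (p - 1).primeFactors, W q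
        ≤ C1 * (2 ^ n / n) * ∑ q ∈ PN (n + 1), W q / q + C1 * B * 2 ^ n / (n * √n))
    {a e : ℕ → ℝ} (h : Adms a e) {n : ℕ} (hn : 1 ≤ n) :
    AA a (n + 1) ≤ AA a n + C1 / n * AA a (n + 1) + (2 * C1 * (1 / √n)
      + ∑ p ∈ DB n, min (e p) (lg p) / p) := by
  have hn0 : (1 : ℝ) ≤ n := by exact_mod_cast hn
  have hsq : 0 < √(n : ℝ) := Real.sqrt_pos.2 (by linarith)
  set E := ∑ p ∈ DB n, min (e p) (lg p) / p with hE
  have hpt : ∀ p ∈ DB n, a p * (lg p / p) ≤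
      (1 / 2 ^ n) * ∑ q ∈ (p - 1).primeFactors, (lg q * a q) + (min (e p) (lg p) / p) := by
    intro p hp
    have hpp := (mem_DB.1 hp).2
    have hp0 : (0 : ℝ) < p := by exact_mod_cast hpp.pos
    have hinv := inv_DB hp
    have hS : 0 ≤ ∑ q ∈ (p - 1).primeFactors, (lg q * a q) :=
      Finset.sum_nonneg (fun q _ => x_nonneg h q)
    have b1 : lg p * a p ≤ ∑ q ∈ (p - 1).primeFactors, (lg q * a q) + min (e p) (lg p) := by
      rcases le_total (e p) (lg p) with h2 | h2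
      · rw [min_eq_left h2]; exact h.sub p hpp
      · rw [min_eq_right h2]
        have := x_le h p
        linarith
    have b2 := mul_le_mul_of_nonneg_right b1 (show (0 : ℝ) ≤ 1 / p by positivity)
    have b3 := mul_le_mul_of_nonneg_left hinv hS
    calc a p * (lg p / p) = lg p * a p * (1 / p) := by ring
      _ ≤ _ := b2
      _ = (∑ q ∈ (p - 1).primeFactors, (lg q * a q)) * (1 / p) + min (e p) (lg p) / p := by ring
      _ ≤ (∑ q ∈ (p - 1).primeFactors, (lg q * a q)) * (1 / 2 ^ n) + min (e p) (lg p) / p := by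
        linarith only [b3]
      _ = _ := by ring
  have hsum := Finset.sum_le_sum hpt
  rw [Finset.sum_add_distrib, ← Finset.mul_sum, ← hE] at hsum
  have k1 := h1 n hn (fun q => lg q * a q) ((n : ℝ) + 1) (fun q => x_nonneg h q) (by
      intro q hq
      have := lg_PN hq
      push_cast at this
      exact (x_le h q).trans this)
  have e3 : ∑ q ∈ PN (n + 1), (lg q * a q) / (q : ℝ) = AA a (n + 1) := by
    unfold AA
    exact Finset.sum_congr rfl (fun q _ => by ring)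
  rw [e3] at k1
  set S1 := ∑ p ∈ DB n, ∑ q ∈ (p - 1).primeFactors, (lg q * a q) with hS1
  set T := AA a (n + 1) with hT
  have hn1 : (1 : ℝ) / n ≤ 2 / (n + 1) := by
    rw [div_le_div_iff₀ (by linarith) (by linarith)]; linarith
  have m1 : (1 / 2 ^ n) * S1 ≤ C1 / n * T + 2 * C1 * (1 / √n) := by
    have a1 := mul_le_mul_of_nonneg_left k1 (show (0 : ℝ) ≤ (1 / 2 ^ n) by positivity)
    have a2 : (1 / 2 ^ n) * (C1 * (2 ^ n / n) * T + C1 * ((n : ℝ) + 1) * 2 ^ n /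
        (n * √n)) = C1 / n * T + C1 * (((n : ℝ) + 1) * (1 / n) / √n) := by
      field_simp
    rw [a2] at a1
    have a3 : ((n : ℝ) + 1) * (1 / n) ≤ 2 := by
      calc ((n : ℝ) + 1) * (1 / n) ≤ ((n : ℝ) + 1) * (2 / (n + 1)) :=
            mul_le_mul_of_nonneg_left hn1 (by positivity)
        _ = _ := by field_simp
    have a4 : ((n : ℝ) + 1) * (1 / n) / √n ≤ 2 / √n := div_le_div_of_nonneg_right a3 hsq.le
    have a5 := mul_le_mul_of_nonneg_left a4 hC1.le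
    calc _ ≤ _ := a1
      _ ≤ C1 / n * T + C1 * (2 / √n) := by linarith only [a5]
      _ = _ := by ring
  have hfin : T = AA a n + ∑ p ∈ DB n, a p * (lg p / p) := AA_succ a n
  linarith only [hsum, m1, hfin]

end Pool.Agent.Helper94.Tot
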