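import Pool.Agent.Helper94.Tot.Soft2

/-!
# Normal order of the iterated totient class: the star and growth inequalities
-/

set_option autoImplicit false

open Finset Filter Topology

namespace Pool.Agent.Helper94.Tot

theorem sum_Ico_Er (e : ℕ → ℝ) {m n : ℕ} (hmn : m ≤ n) :
    ∑ i ∈ Ico m n, ∑ p ∈ DB i, min (e p) (lg p) / p = Er e n - Er e m := by
  induction n, hmn using Nat.le_induction with
  | base => simp
  | succ n hmn ih =>
    rw [Finset.sum_Ico_succ_top hmn, ih, Er_succ]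
    ring

theorem ff_nonneg {e : ℕ → ℝ} (he : ∀ p, 0 ≤ e p) (n : ℕ) : 0 ≤ ff e n := by
  unfold ff
  have := Er_nonneg he n
  positivity

theorem LL_nonneg {a : ℕ → ℝ} (ha : ∀ p, 0 ≤ a p) (n : ℕ) : 0 ≤ LL a n := by
  unfold LL
  have := AA_nonneg ha n
  positivity

theorem ff_lower {e : ℕ → ℝ} (he : ∀ p, 0 ≤ e p) {n K : ℕ} (hn : 1 ≤ n) (h : n ≤ K) :
    1 / (K : ℝ) ≤ ff e n := by
  unfold ff
  have h0 : (1 : ℝ) ≤ n := by exact_mod_cast hn
  have h1 : (n : ℝ) ≤ K := by exact_mod_cast h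
  have h2 := Er_nonneg he n
  have h3 : √(n : ℝ) ≤ n := by
    rw [Real.sqrt_le_left (by linarith)]
    nlinarith only [h0]
  have h4 : 0 < √(n : ℝ) := Real.sqrt_pos.2 (by linarith)
  have h5 : 1 / (K : ℝ) ≤ 1 / √(n : ℝ) := one_div_le_one_div_of_le h4 (by linarith)
  have h6 : 0 ≤ Er e n / n := by positivity
  linarith

/-- the growth inequality -/
theorem growth (hN1 : StmtN1) : ∃ C : ℝ, 1 ≤ C ∧ ∀ a e, Adms a e → ∀ n : ℕ, 1 ≤ n →
    LL a (2 * n) ≤ C * (LL a n + ff e (2 * n)) := by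
  obtain ⟨C1, hC1, h1⟩ := hN1
  set k : ℕ := ⌈2 * C1⌉₊ + 1 with hk
  have hk1 : 1 ≤ k := by omega
  have hkC : 2 * C1 ≤ k := by
    have := Nat.le_ceil (2 * C1)
    rw [hk]; push_cast; linarith
  refine ⟨2 ^ (2 * k) * (2 * k) + 2 ^ k * (1 + 4 * C1 + 2), ?_, ?_⟩
  · have a1 : (1 : ℝ) ≤ k := by exact_mod_cast hk1
    have a2 : (1 : ℝ) ≤ 2 ^ (2 * k) := one_le_pow₀ (by norm_num)
    have a3 : (1 : ℝ) ≤ 2 ^ (2 * k) * (2 * k) := by nlinarith only [hC1, hkC, a1, a2]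
    have a4 : (0 : ℝ) ≤ 2 ^ k * (1 + 4 * C1 + 2) := by positivity
    linarith
  intro a e h n hn
  have hn0 : (1 : ℝ) ≤ n := by exact_mod_cast hn
  have hL0 := LL_nonneg h.nonneg n
  have hf0 := ff_nonneg h.err (2 * n)
  have hA : (0 : ℝ) ≤ 2 ^ (2 * k) * (2 * k) := by positivity
  have hB : (0 : ℝ) ≤ 2 ^ k * (1 + 4 * C1 + 2) := by positivity
  rcases Nat.lt_or_ge n k with hnk | hnk
  · have h2 : LL a (2 * n) ≤ 2 ^ (2 * k) := by
      unfold LL
      rw [div_le_iff₀ (by push_cast; linarith)]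
      calc AA a (2 * n) ≤ ((2 * n : ℕ) : ℝ) * 2 ^ (2 * n) := AA_le_triv h _
        _ ≤ ((2 * n : ℕ) : ℝ) * 2 ^ (2 * k) := by
          apply mul_le_mul_of_nonneg_left _ (Nat.cast_nonneg _)
          exact pow_le_pow_right₀ (by norm_num) (by omega)
        _ = _ := by ring
    have h3 : 1 / ((2 * k : ℕ) : ℝ) ≤ ff e (2 * n) := ff_lower h.err (by omega) (by omega)
    have hk0 : (0 : ℝ) < k := by exact_mod_cast hk1
    have h4 : (2 : ℝ) ^ (2 * k) ≤ 2 ^ (2 * k) * (2 * k) * ff e (2 * n) := by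
      have h5 := mul_le_mul_of_nonneg_left h3 hA
      have h6 : (2 : ℝ) ^ (2 * k) * (2 * k) * (1 / ((2 * k : ℕ) : ℝ)) = 2 ^ (2 * k) := by
        push_cast; field_simp
      linarith only [h5, h6]
    have h5 : 0 ≤ 2 ^ (2 * k) * (2 * k) * LL a n := by positivity
    have h6 : 0 ≤ 2 ^ k * (1 + 4 * C1 + 2) * (LL a n + ff e (2 * n)) := by positivity
    calc LL a (2 * n) ≤ 2 ^ (2 * k) * (2 * k) * ff e (2 * n) := h2.trans h4
      _ ≤ 2 ^ (2 * k) * (2 * k) * LL a n + 2 ^ (2 * k) * (2 * k) * ff e (2 * n)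
          + 2 ^ k * (1 + 4 * C1 + 2) * (LL a n + ff e (2 * n)) := by linarith only [h5, h6]
      _ = _ := by ring
  · set hfun : ℕ → ℝ := fun m => 2 * (2 * C1 * (1 / √(m : ℝ)) +
      ∑ p ∈ DB m, min (e p) (lg p) / p) with hfun'
    have hrec : ∀ m, k ≤ m → AA a (m + 1) ≤ (((m : ℝ) + 1) / m) ^ k * (AA a m + hfun m) := by
      intro m hm
      have hm1 : 1 ≤ m := by omega
      have hE : 0 ≤ ∑ p ∈ DB m, min (e p) (lg p) / p :=
        Finset.sum_nonneg (fun p _ => Er_term_nonneg h.err p)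
      exact gronwall_step hkC hC1.le (by exact_mod_cast hm) hk1 (AA_nonneg h.nonneg m)
        (by positivity) (growth_step hC1 h1 h hm1)
    have hg := gronwall (AA a) hfun k hk1 hrec hnk (show n ≤ 2 * n by omega)
    have hnk0 : (0 : ℝ) < (n : ℝ) ^ k := by positivity
    have hsum : ∑ i ∈ Ico n (2 * n), hfun i / (i : ℝ) ^ k ≤
        (4 * C1 * (n * (1 / √(n : ℝ))) + 2 * Er e (2 * n)) / (n : ℝ) ^ k := by
      have s1 : ∀ i ∈ Ico n (2 * n), hfun i / (i : ℝ) ^ k ≤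
          (4 * C1 * (1 / √(n : ℝ)) + 2 * ∑ p ∈ DB i, min (e p) (lg p) / p) / (n : ℝ) ^ k := by
        intro i hi
        rw [Finset.mem_Ico] at hi
        have hi0 : (n : ℝ) ≤ i := by exact_mod_cast hi.1
        have hE : 0 ≤ ∑ p ∈ DB i, min (e p) (lg p) / p :=
          Finset.sum_nonneg (fun p _ => Er_term_nonneg h.err p)
        have t1 : 1 / √(i : ℝ) ≤ 1 / √(n : ℝ) :=
          one_div_le_one_div_of_le (Real.sqrt_pos.2 (by linarith only [hn0])) (Real.sqrt_le_sqrt hi0)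
        have t2 : hfun i ≤ 4 * C1 * (1 / √(n : ℝ)) + 2 * ∑ p ∈ DB i, min (e p) (lg p) / p := by
          rw [hfun']
          have := mul_le_mul_of_nonneg_left t1 (show (0 : ℝ) ≤ 4 * C1 by positivity)
          simp only []
          linarith only [this]
        have t3 : 0 ≤ 4 * C1 * (1 / √(n : ℝ)) + 2 * ∑ p ∈ DB i, min (e p) (lg p) / p := by
          positivity
        exact div_le_div₀ t3 t2 hnk0 (pow_le_pow_left₀ (by linarith only [hn0]) hi0 k)
      calc _ ≤ _ := Finset.sum_le_sum s1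
        _ = (∑ i ∈ Ico n (2 * n), (4 * C1 * (1 / √(n : ℝ)) +
            2 * ∑ p ∈ DB i, min (e p) (lg p) / p)) / (n : ℝ) ^ k := by
          rw [Finset.sum_div]
        _ ≤ _ := by
          apply div_le_div_of_nonneg_right _ hnk0.le
          rw [Finset.sum_add_distrib, Finset.sum_const, ← Finset.mul_sum, sum_Ico_Er e (by omega),
            Nat.card_Ico, nsmul_eq_mul]
          have t4 : ((2 * n - n : ℕ) : ℝ) = n := by
            congr 1; omega
          rw [t4]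
          have t5 := Er_nonneg h.err n
          nlinarith only [t5]
    have hfin : AA a (2 * n) ≤ 2 ^ k * (AA a n + 4 * C1 * (n * (1 / √(n : ℝ))) +
        2 * Er e (2 * n)) := by
      have t1 : AA a (2 * n) / ((2 * n : ℕ) : ℝ) ^ k ≤
          (AA a n + 4 * C1 * (n * (1 / √(n : ℝ))) + 2 * Er e (2 * n)) / (n : ℝ) ^ k := by
        calc _ ≤ _ := hg
          _ ≤ AA a n / (n : ℝ) ^ k + (4 * C1 * (n * (1 / √(n : ℝ))) + 2 * Er e (2 * n)) /
            (n : ℝ) ^ k := by linarith only [hsum]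
          _ = _ := by ring
      have t2 : (((2 * n : ℕ) : ℝ)) ^ k = 2 ^ k * (n : ℝ) ^ k := by
        push_cast; rw [mul_pow]
      rw [t2, div_le_div_iff₀ (by positivity) hnk0] at t1
      have t3 : AA a (2 * n) * (n : ℝ) ^ k ≤ (2 ^ k * (AA a n + 4 * C1 * (n * (1 / √(n : ℝ))) +
          2 * Er e (2 * n))) * (n : ℝ) ^ k := by
        calc _ ≤ _ := t1
          _ = _ := by ring
      exact le_of_mul_le_mul_right t3 hnk0
    have hsq : 0 < √(n : ℝ) := Real.sqrt_pos.2 (by linarith only [hn0])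
    have hsq2 : 1 / √(n : ℝ) ≤ 2 * (1 / √((2 * n : ℕ) : ℝ)) := by
      have : √((2 * n : ℕ) : ℝ) ≤ 2 * √(n : ℝ) := by
        rw [Real.sqrt_le_left (by positivity), mul_pow, Real.sq_sqrt (by linarith only [hn0])]
        push_cast
        linarith only [hn0]
      have h2n : 0 < √((2 * n : ℕ) : ℝ) := Real.sqrt_pos.2 (by push_cast; linarith only [hn0])
      rw [show 2 * (1 / √((2 * n : ℕ) : ℝ)) = 2 / √((2 * n : ℕ) : ℝ) by ring,
        div_le_div_iff₀ hsq h2n]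
      linarith only [this]
    have hl : LL a (2 * n) ≤ 2 ^ k * (1 + 4 * C1 + 2) * (LL a n + ff e (2 * n)) := by
      unfold LL ff at *
      have hE := Er_nonneg h.err (2 * n)
      have hA0 := AA_nonneg h.nonneg n
      have c1 : (((2 * n : ℕ) : ℝ)) = 2 * n := by push_cast; ring
      rw [div_le_iff₀ (by rw [c1]; linarith only [hn0])]
      set s := 1 / √(n : ℝ) with hs
      set s' := 1 / √((2 * n : ℕ) : ℝ) with hs'
      have hs0 : 0 ≤ s := by positivity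
      have hs0' : 0 ≤ s' := by positivity
      set E := Er e (2 * n) with hE'
      have e1 : (AA a n / n + (s' + E / ((2 * n : ℕ) : ℝ))) * ((2 * n : ℕ) : ℝ) =
          2 * AA a n + 2 * n * s' + E := by
        rw [c1]; field_simp; ring
      calc AA a (2 * n) ≤ 2 ^ k * (AA a n + 4 * C1 * (n * s) + 2 * E) := hfin
        _ ≤ 2 ^ k * ((1 + 4 * C1 + 2) * (2 * AA a n + 2 * n * s' + E)) := by
          apply mul_le_mul_of_nonneg_left _ (by positivity)
          have u1 : n * s ≤ n * (2 * s') := mul_le_mul_of_nonneg_left hsq2 (by linarith only [hn0])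
          have u2 : 4 * C1 * (n * s) ≤ 4 * C1 * (n * (2 * s')) :=
            mul_le_mul_of_nonneg_left u1 (by positivity)
          have u3 : 0 ≤ C1 * AA a n := by positivity
          have u4 : 0 ≤ C1 * E := by positivity
          have u5 : 0 ≤ (n : ℝ) * s' := by positivity
          nlinarith only [hA0, hE, u2, u3, u4, u5]
        _ = 2 ^ k * (1 + 4 * C1 + 2) * ((AA a n / n + (s' + E / ((2 * n : ℕ) : ℝ))) *
            ((2 * n : ℕ) : ℝ)) := by rw [e1]; ring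
        _ = _ := by ring
    have : 0 ≤ 2 ^ (2 * k) * (2 * k) * (LL a n + ff e (2 * n)) := by positivity
    calc _ ≤ _ := hl
      _ ≤ 2 ^ (2 * k) * (2 * k) * (LL a n + ff e (2 * n)) +
          2 ^ k * (1 + 4 * C1 + 2) * (LL a n + ff e (2 * n)) := by linarith only [this]
      _ = _ := by ring

/-- the moment bound -/
theorem moment_bound (hN1 : StmtN1) (hN2 : StmtN2) : ∃ (k : ℕ) (C : ℝ), 1 ≤ k ∧ 0 < C ∧
    ∀ a e, Adms a e → ∀ N : ℕ, k ≤ N →
      Tm a (k + 3) N ≤ C * (N : ℝ) ^ (k + 3) * (LL a N ^ 2 + ff e N) := by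
  obtain ⟨C1, hC1, h1⟩ := hN1
  obtain ⟨C2, hC2, h2⟩ := hN2
  set k : ℕ := ⌈2 * (3 * C1)⌉₊ + 1 with hk
  have hk1 : 1 ≤ k := by omega
  have hkC : 2 * (3 * C1) ≤ k := by
    have := Nat.le_ceil (2 * (3 * C1))
    rw [hk]; push_cast; linarith
  obtain ⟨D, hD, hstep⟩ := moment_step hC1 hC2 h1 h2 k
  refine ⟨k, (k : ℝ) ^ (k + 3) * 2 ^ k + 2 ^ k * (4 * D), hk1, by positivity, ?_⟩
  intro a e h N hkN
  have hN1' : 1 ≤ N := by omega
  have hN0 : (1 : ℝ) ≤ N := by exact_mod_cast hN1'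
  set X := ∑ i ∈ Ico k N, ((1 : ℝ)) with hX
  set hfun : ℕ → ℝ := fun m => 2 * (D * (((m : ℝ) + 1) ^ (k + 2) / √m +
    ((m : ℝ) + 1) ^ k * AA a (m + 1) ^ 2
          + ((m : ℝ) + 1) ^ (k + 2) * ∑ p ∈ DB m, min (e p) (lg p) / p)) with hfun'
  have hrec : ∀ m, k ≤ m →
      Tm a (k + 3) (m + 1) ≤ (((m : ℝ) + 1) / m) ^ k * (Tm a (k + 3) m + hfun m) := by
    intro m hm
    have hm1 : 1 ≤ m := by omega
    have hE : 0 ≤ ∑ p ∈ DB m, min (e p) (lg p) / p :=
      Finset.sum_nonneg (fun p _ => Er_term_nonneg h.err p)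
    have hs := hstep a e h m hm1
    exact gronwall_step hkC (by positivity) (by exact_mod_cast hm) hk1 (Tm_nonneg h _ m)
      (by positivity) hs
  have hg := gronwall (Tm a (k + 3)) hfun k hk1 hrec le_rfl hkN
  have hsN : 0 < √(N : ℝ) := Real.sqrt_pos.2 (by linarith only [hN0])
  have hAN := AA_nonneg h.nonneg N
  have hEN := Er_nonneg h.err N
  -- bound of the sum
  have hterm : ∀ i ∈ Ico k N, hfun i / (i : ℝ) ^ k ≤
      2 * D * 2 ^ k * (2 * ((N : ℝ) ^ 2 * (1 / √(N : ℝ))) + AA a N ^ 2 +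
        (N : ℝ) ^ 2 * ∑ p ∈ DB i, min (e p) (lg p) / p) := by
    intro i hi
    rw [Finset.mem_Ico] at hi
    have hi1 : 1 ≤ i := by omega
    have hi0 : (1 : ℝ) ≤ i := by exact_mod_cast hi1
    have hiN : (i : ℝ) + 1 ≤ N := by exact_mod_cast hi.2
    have hE : 0 ≤ ∑ p ∈ DB i, min (e p) (lg p) / p :=
      Finset.sum_nonneg (fun p _ => Er_term_nonneg h.err p)
    have hpk : 0 < (i : ℝ) ^ k := by positivity
    rw [div_le_iff₀ hpk]
    have r1 : ((i : ℝ) + 1) ^ k ≤ 2 ^ k * (i : ℝ) ^ k := by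
      rw [← mul_pow]
      exact pow_le_pow_left₀ (by positivity) (by linarith only [hi0]) k
    have r2 : AA a (i + 1) ^ 2 ≤ AA a N ^ 2 :=
      pow_le_pow_left₀ (AA_nonneg h.nonneg _) (AA_mono h.nonneg hi.2) 2
    have r3 : ((i : ℝ) + 1) ^ 2 * (1 / √(i : ℝ)) ≤ 2 * ((N : ℝ) ^ 2 * (1 / √(N : ℝ))) := by
      -- (i+1)^2/√i ≤ 2 (i+1)^2/√(i+1) ≤ 2 N^2/√N
      have hsi : 0 < √(i : ℝ) := Real.sqrt_pos.2 (by linarith only [hi0])
      have hsi1 : 0 < √((i : ℝ) + 1) := Real.sqrt_pos.2 (by linarith only [hi0])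
      have s1 : √((i : ℝ) + 1) ≤ 2 * √(i : ℝ) := by
        rw [Real.sqrt_le_left (by positivity), mul_pow, Real.sq_sqrt (by linarith only [hi0])]
        linarith only [hi0]
      have s2 : 1 / √(i : ℝ) ≤ 2 * (1 / √((i : ℝ) + 1)) := by
        rw [show 2 * (1 / √((i : ℝ) + 1)) = 2 / √((i : ℝ) + 1) by ring, div_le_div_iff₀ hsi hsi1]
        linarith only [s1]
      have s3 : ((i : ℝ) + 1) ^ 2 * (1 / √((i : ℝ) + 1)) = ((i : ℝ) + 1) * √((i : ℝ) + 1) := by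
        have : ((i : ℝ) + 1) = √((i : ℝ) + 1) * √((i : ℝ) + 1) :=
          (Real.mul_self_sqrt (by linarith only [hi0])).symm
        rw [show ((i : ℝ) + 1) ^ 2 * (1 / √((i : ℝ) + 1)) =
          ((i : ℝ) + 1) * (((i : ℝ) + 1) / √((i : ℝ) + 1)) by ring]
        congr 1
        rw [div_eq_iff hsi1.ne']
        exact this
      have s4 : (N : ℝ) ^ 2 * (1 / √(N : ℝ)) = (N : ℝ) * √(N : ℝ) := by
        have : (N : ℝ) = √(N : ℝ) * √(N : ℝ) := (Real.mul_self_sqrt (by linarith only [hi0, hiN])).symm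
        rw [show (N : ℝ) ^ 2 * (1 / √(N : ℝ)) = (N : ℝ) * ((N : ℝ) / √(N : ℝ)) by ring]
        congr 1
        rw [div_eq_iff hsN.ne']
        exact this
      have s5 : ((i : ℝ) + 1) * √((i : ℝ) + 1) ≤ (N : ℝ) * √(N : ℝ) :=
        mul_le_mul hiN (Real.sqrt_le_sqrt hiN) hsi1.le (by linarith only [hi0, hiN])
      calc ((i : ℝ) + 1) ^ 2 * (1 / √(i : ℝ))
          ≤ ((i : ℝ) + 1) ^ 2 * (2 * (1 / √((i : ℝ) + 1))) :=
            mul_le_mul_of_nonneg_left s2 (by positivity)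
        _ = 2 * (((i : ℝ) + 1) ^ 2 * (1 / √((i : ℝ) + 1))) := by ring
        _ = 2 * (((i : ℝ) + 1) * √((i : ℝ) + 1)) := by rw [s3]
        _ ≤ 2 * ((N : ℝ) * √(N : ℝ)) := by linarith only [s5]
        _ = _ := by rw [s4]
    have r4 : ((i : ℝ) + 1) ^ 2 ≤ (N : ℝ) ^ 2 := pow_le_pow_left₀ (by positivity) hiN 2
    have r5 := mul_le_mul_of_nonneg_right r4 hE
    have r6 : ((i : ℝ) + 1) ^ 2 * (1 / √(i : ℝ)) + AA a (i + 1) ^ 2 +
        ((i : ℝ) + 1) ^ 2 * ∑ p ∈ DB i, min (e p) (lg p) / p ≤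
        2 * ((N : ℝ) ^ 2 * (1 / √(N : ℝ))) + AA a N ^ 2 +
        (N : ℝ) ^ 2 * ∑ p ∈ DB i, min (e p) (lg p) / p := by linarith only [r2, r3, r5]
    have r7 : hfun i = 2 * D * ((i : ℝ) + 1) ^ k * (((i : ℝ) + 1) ^ 2 * (1 / √(i : ℝ)) +
        AA a (i + 1) ^ 2 + ((i : ℝ) + 1) ^ 2 * ∑ p ∈ DB i, min (e p) (lg p) / p) := by
      rw [hfun']
      simp only []
      rw [pow_add]
      ring
    rw [r7]
    calc _ ≤ 2 * D * (2 ^ k * (i : ℝ) ^ k) * (2 * ((N : ℝ) ^ 2 * (1 / √(N : ℝ))) + AA a N ^ 2 +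
        (N : ℝ) ^ 2 * ∑ p ∈ DB i, min (e p) (lg p) / p) := by
          apply mul_le_mul _ r6 (by positivity) (by positivity)
          exact mul_le_mul_of_nonneg_left r1 (by positivity)
      _ = _ := by ring
  have hsum := Finset.sum_le_sum hterm
  rw [← Finset.mul_sum, Finset.sum_add_distrib, Finset.sum_const, ← Finset.mul_sum,
    sum_Ico_Er e hkN, Nat.card_Ico, nsmul_eq_mul] at hsum
  set U := 2 * ((N : ℝ) ^ 2 * (1 / √(N : ℝ))) + AA a N ^ 2 with hU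
  have hU0 : 0 ≤ U := by positivity
  have hcard : ((N - k : ℕ) : ℝ) ≤ N := by exact_mod_cast Nat.sub_le N k
  have hsum2 : ∑ i ∈ Ico k N, hfun i / (i : ℝ) ^ k ≤
      2 * D * 2 ^ k * (N * U + (N : ℝ) ^ 2 * Er e N) := by
    refine hsum.trans ?_
    apply mul_le_mul_of_nonneg_left _ (by positivity)
    have a1 : ((N - k : ℕ) : ℝ) * U ≤ N * U := mul_le_mul_of_nonneg_right hcard hU0
    have a2 : (N : ℝ) ^ 2 * (Er e N - Er e k) ≤ (N : ℝ) ^ 2 * Er e N := by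
      apply mul_le_mul_of_nonneg_left _ (by positivity)
      linarith only [h, Er_nonneg h.err k]
    linarith only [a1, a2]
  have hNk : (0 : ℝ) < (N : ℝ) ^ k := by positivity
  have hTk : Tm a (k + 3) k / (k : ℝ) ^ k ≤ (k : ℝ) ^ (k + 3) * 2 ^ k := by
    have hk0 : (1 : ℝ) ≤ k := by exact_mod_cast hk1
    have : (1 : ℝ) ≤ (k : ℝ) ^ k := one_le_pow₀ hk0
    exact (div_le_self (Tm_nonneg h _ _) this).trans (Tm_le h _ _)
  have hfin : Tm a (k + 3) N ≤ (N : ℝ) ^ k * ((k : ℝ) ^ (k + 3) * 2 ^ k +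
      2 * D * 2 ^ k * (N * U + (N : ℝ) ^ 2 * Er e N)) := by
    have : Tm a (k + 3) N / (N : ℝ) ^ k ≤ (k : ℝ) ^ (k + 3) * 2 ^ k +
      2 * D * 2 ^ k * (N * U + (N : ℝ) ^ 2 * Er e N) := by linarith only [hg, hsum2, hTk]
    rw [div_le_iff₀ hNk] at this
    linarith only [this]
  -- conclusion
  have e1 : (N : ℝ) ^ (k + 3) * (LL a N ^ 2 + ff e N) =
      (N : ℝ) ^ k * (N * AA a N ^ 2 + (N : ℝ) ^ 3 * (1 / √(N : ℝ)) + (N : ℝ) ^ 2 * Er e N) := by
    unfold LL ff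
    rw [pow_add]
    field_simp
    ring
  have e2 : (1 : ℝ) ≤ (N : ℝ) ^ 3 * (1 / √(N : ℝ)) := by
    rw [mul_one_div, le_div_iff₀ hsN, one_mul, Real.sqrt_le_left (by positivity)]
    have h1 : (N : ℝ) ≤ N ^ 2 := by nlinarith only [hN0]
    have h2 : ((N : ℝ) ^ 2) ≤ ((N : ℝ) ^ 3) ^ 2 := by
      rw [← pow_mul]; exact pow_le_pow_right₀ hN0 (by norm_num)
    linarith only [h1, h2]
  set Z := (N : ℝ) ^ 3 * (1 / √(N : ℝ)) with hZ
  have e3 : N * U = 2 * Z + N * AA a N ^ 2 := by rw [hU, hZ]; ring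
  rw [e3] at hfin
  have hE2 : 0 ≤ (N : ℝ) ^ 2 * Er e N := by positivity
  have hA2 : 0 ≤ N * AA a N ^ 2 := by positivity
  have hZ0 : 0 ≤ Z := by linarith only [e2]
  rw [mul_assoc, e1]
  calc Tm a (k + 3) N ≤ _ := hfin
    _ ≤ (N : ℝ) ^ k * (((k : ℝ) ^ (k + 3) * 2 ^ k + 2 ^ k * (4 * D)) *
        (N * AA a N ^ 2 + Z + (N : ℝ) ^ 2 * Er e N)) := by
      apply mul_le_mul_of_nonneg_left _ hNk.le
      have hQ : 0 ≤ (k : ℝ) ^ (k + 3) * 2 ^ k := by positivity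
      have g1 : (k : ℝ) ^ (k + 3) * 2 ^ k ≤ (k : ℝ) ^ (k + 3) * 2 ^ k *
          (N * AA a N ^ 2 + Z + (N : ℝ) ^ 2 * Er e N) :=
        le_mul_of_one_le_right hQ (by linarith only [e2, hE2, hA2])
      have hP : 0 ≤ D * 2 ^ k := by positivity
      have g2 : 2 * D * 2 ^ k * (2 * Z + N * AA a N ^ 2 + (N : ℝ) ^ 2 * Er e N) ≤
          2 ^ k * (4 * D) * (N * AA a N ^ 2 + Z + (N : ℝ) ^ 2 * Er e N) := by
        have : 2 ^ k * (4 * D) * (N * AA a N ^ 2 + Z + (N : ℝ) ^ 2 * Er e N) -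
            2 * D * 2 ^ k * (2 * Z + N * AA a N ^ 2 + (N : ℝ) ^ 2 * Er e N) =
            (D * 2 ^ k) * (2 * (N * AA a N ^ 2) + 2 * ((N : ℝ) ^ 2 * Er e N)) := by ring
        have h3 : 0 ≤ (D * 2 ^ k) * (2 * (N * AA a N ^ 2) + 2 * ((N : ℝ) ^ 2 * Er e N)) := by
          positivity
        linarith only [h3]
      linarith only [g1, g2]
    _ = _ := by ring

/-- the star inequality -/
theorem star (hN1 : StmtN1) (hN2 : StmtN2) : ∃ (r : ℕ) (C : ℝ), 2 ≤ r ∧ 1 ≤ C ∧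
    ∀ a e, Adms a e → ∀ n : ℕ, 1 ≤ n →
      ∑ p ∈ PN (2 * n) \ PN n, a p ^ r * (lg p / p) ≤ C * n * (LL a (2 * n) ^ 2 + ff e (2 * n)) := by
  obtain ⟨k, C, hk1, hC, hT⟩ := moment_bound hN1 hN2
  refine ⟨k + 3, C * 2 ^ (k + 3) + 2 * k * 2 ^ (2 * k) * (2 * k) + 1, by omega, by
    have : 0 ≤ C * 2 ^ (k + 3) + 2 * k * 2 ^ (2 * k) * (2 * k) := by positivity
    linarith, ?_⟩
  intro a e h n hn
  have hn0 : (1 : ℝ) ≤ n := by exact_mod_cast hn
  have hL0 := LL_nonneg h.nonneg (2 * n)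
  have hf0 := ff_nonneg h.err (2 * n)
  have hG : 0 ≤ LL a (2 * n) ^ 2 + ff e (2 * n) := by positivity
  have hCC : 0 ≤ C * 2 ^ (k + 3) := by positivity
  have hQ : (0 : ℝ) ≤ 2 * k * 2 ^ (2 * k) * (2 * k) := by positivity
  rcases Nat.lt_or_ge (2 * n) k with hnk | hnk
  · have h1 : ∑ p ∈ PN (2 * n) \ PN n, a p ^ (k + 3) * (lg p / p) ≤ 2 * k * 2 ^ (2 * k) := by
      calc ∑ p ∈ PN (2 * n) \ PN n, a p ^ (k + 3) * (lg p / p)
          ≤ ∑ p ∈ PN (2 * n), a p * (lg p / p) := by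
            refine le_trans (Finset.sum_le_sum (g := fun p => a p * (lg p / p)) ?_)
              (Finset.sum_le_sum_of_subset_of_nonneg Finset.sdiff_subset ?_)
            · intro p _
              apply mul_le_mul_of_nonneg_right _ (div_nonneg (lg_nonneg p) (Nat.cast_nonneg p))
              exact pow_le_of_le_one (h.nonneg p) (h.le_one p) (by omega)
            · intro p _ _
              exact mul_nonneg (h.nonneg p) (div_nonneg (lg_nonneg p) (Nat.cast_nonneg p))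
        _ = AA a (2 * n) := rfl
        _ ≤ ((2 * n : ℕ) : ℝ) * 2 ^ (2 * n) := AA_le_triv h _
        _ ≤ 2 * k * 2 ^ (2 * k) := by
          apply mul_le_mul _ (pow_le_pow_right₀ (by norm_num) (by omega)) (by positivity)
            (by positivity)
          have : ((2 * n : ℕ) : ℝ) ≤ k := by exact_mod_cast hnk.le
          have hk0 : (0 : ℝ) ≤ k := Nat.cast_nonneg _
          linarith only [this]
    have hk0 : (0 : ℝ) < k := by exact_mod_cast hk1
    have h3 : 1 / ((2 * k : ℕ) : ℝ) ≤ ff e (2 * n) := ff_lower h.err (by omega) (by omega)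
    have h4 : 2 * k * 2 ^ (2 * k) ≤ 2 * k * 2 ^ (2 * k) * (2 * k) * ff e (2 * n) := by
      have h5 := mul_le_mul_of_nonneg_left h3 hQ
      have h6 : (2 : ℝ) * k * 2 ^ (2 * k) * (2 * k) * (1 / ((2 * k : ℕ) : ℝ)) =
          2 * k * 2 ^ (2 * k) := by
        push_cast; field_simp
      linarith only [h5, h6]
    calc _ ≤ 2 * k * 2 ^ (2 * k) * (2 * k) * ff e (2 * n) := h1.trans h4
      _ ≤ (C * 2 ^ (k + 3) + 2 * k * 2 ^ (2 * k) * (2 * k) + 1) * (LL a (2 * n) ^ 2 +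
          ff e (2 * n)) := by
        have a1 : 0 ≤ 2 * k * 2 ^ (2 * k) * (2 * k) * LL a (2 * n) ^ 2 := by positivity
        have a2 : 0 ≤ (C * 2 ^ (k + 3) + 1) * (LL a (2 * n) ^ 2 + ff e (2 * n)) := by positivity
        nlinarith only [a1, a2]
      _ ≤ (C * 2 ^ (k + 3) + 2 * k * 2 ^ (2 * k) * (2 * k) + 1) * n * (LL a (2 * n) ^ 2 +
          ff e (2 * n)) := by
        apply mul_le_mul_of_nonneg_right _ hG
        exact le_mul_of_one_le_right (by linarith only [hCC, hQ]) hn0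
  · have h1 := hT a e h (2 * n) hnk
    have hnp : (0 : ℝ) < (n : ℝ) ^ (k + 2) := by positivity
    have h2 : ∑ p ∈ PN (2 * n) \ PN n, a p ^ (k + 3) * (lg p / p) ≤
        Tm a (k + 3) (2 * n) / (n : ℝ) ^ (k + 2) := by
      rw [le_div_iff₀ hnp, Finset.sum_mul]
      refine le_trans (Finset.sum_le_sum (g := fun p => (lg p * a p) ^ (k + 3) / p) ?_)
        (Finset.sum_le_sum_of_subset_of_nonneg Finset.sdiff_subset ?_)
      rotate_left
      · intro p _ _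
        exact div_nonneg (pow_nonneg (x_nonneg h p) _) (Nat.cast_nonneg p)
      · intro p hp
        rw [Finset.mem_sdiff, mem_PN, mem_PN] at hp
        have hpn : 2 ^ n ≤ p := by
          by_contra hcon
          exact hp.2 ⟨by omega, hp.1.2⟩
        have hl : (n : ℝ) ≤ lg p := le_lg_of_le hpn
        have h3 : (n : ℝ) ^ (k + 2) ≤ lg p ^ (k + 2) := pow_le_pow_left₀ (by linarith only [hn0]) hl _
        have h4 : 0 ≤ a p ^ (k + 3) * (lg p / p) :=
          mul_nonneg (pow_nonneg (h.nonneg p) _) (div_nonneg (lg_nonneg p) (Nat.cast_nonneg p))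
        calc a p ^ (k + 3) * (lg p / p) * (n : ℝ) ^ (k + 2)
            ≤ a p ^ (k + 3) * (lg p / p) * lg p ^ (k + 2) := mul_le_mul_of_nonneg_left h3 h4
          _ = (lg p * a p) ^ (k + 3) / p := by rw [mul_pow]; ring
    calc _ ≤ _ := h2
      _ ≤ (C * ((2 * n : ℕ) : ℝ) ^ (k + 3) * (LL a (2 * n) ^ 2 + ff e (2 * n))) /
          (n : ℝ) ^ (k + 2) := div_le_div_of_nonneg_right h1 hnp.le
      _ = C * 2 ^ (k + 3) * n * (LL a (2 * n) ^ 2 + ff e (2 * n)) := by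
        push_cast
        rw [mul_pow]
        field_simp
        ring
      _ ≤ _ := by
        apply mul_le_mul_of_nonneg_right _ hG
        apply mul_le_mul_of_nonneg_right _ (by linarith only [hn0])
        linarith only [hQ]

end Pool.Agent.Helper94.Tot
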