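import Pool.Agent.Helper94.Tot.Soft3

/-!
# Normal order of the iterated totient class: the stability lemma
-/

set_option autoImplicit false

open Finset Filter Topology

namespace Pool.Agent.Helper94.Tot

theorem LL_le_LL {g h : ℕ → ℝ} (hgh : ∀ p, g p ≤ h p) (n : ℕ) : LL g n ≤ LL h n :=
  div_le_div_of_nonneg_right (AA_le_AA hgh n) (Nat.cast_nonneg n)

theorem sum_PN_split (F : ℕ → ℝ) {m n : ℕ} (h : m ≤ n) :
    ∑ p ∈ PN n, F p = ∑ p ∈ PN m, F p + ∑ p ∈ PN n \ PN m, F p := by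
  rw [add_comm, Finset.sum_sdiff (PN_mono h)]

theorem trunc_le_pow {a g : ℝ} {r : ℕ} (hr : 2 ≤ r) (ha : 0 ≤ a) (hg : 0 < g) :
    max (a - g) 0 ≤ a ^ r / g ^ (r - 1) := by
  apply max_le
  · rcases le_total a g with h | h
    · have : 0 ≤ a ^ r / g ^ (r - 1) := by positivity
      linarith
    · rw [le_div_iff₀ (by positivity)]
      have h1 : g ^ (r - 1) ≤ a ^ (r - 1) := pow_le_pow_left₀ hg.le h _
      have h2 : a ^ r = a * a ^ (r - 1) := by
        rw [← pow_succ']; congr 1; omega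
      rw [h2]
      calc (a - g) * g ^ (r - 1) ≤ a * g ^ (r - 1) :=
            mul_le_mul_of_nonneg_right (by linarith) (by positivity)
        _ ≤ _ := mul_le_mul_of_nonneg_left h1 ha
  · positivity

theorem stab_step {r : ℕ} (hr : 2 ≤ r) {C2 C3 : ℝ} (hC2 : 1 ≤ C2) (hC3 : 1 ≤ C3)
    (hgrow : ∀ a e, Adms a e → ∀ n : ℕ, 1 ≤ n → LL a (2 * n) ≤ C3 * (LL a n + ff e (2 * n)))
    (hstar : ∀ a e, Adms a e → ∀ n : ℕ, 1 ≤ n →
      ∑ p ∈ PN (2 * n) \ PN n, a p ^ r * (lg p / p) ≤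
        C2 * n * (LL a (2 * n) ^ 2 + ff e (2 * n)))
    {a e : ℕ → ℝ} (h : Adms a e) {M : ℕ} (hM : 1 ≤ M) {δ g : ℝ} (hδ : 0 < δ) (hδ1 : δ ≤ 1)
    (hg : 0 < g) (hgr : g ^ (r - 1) = 4 * (C2 * (4 * C3 ^ 2 + 1)) * δ) (hL : LL a M ≤ δ)
    (hf : ff e (2 * M) ≤ δ ^ 2) :
    LL (fun p => max (a p - g) 0) (2 * M) ≤ 5 / 8 * δ := by
  have hM0 : (1 : ℝ) ≤ M := by exact_mod_cast hM
  have hgp : 0 < g ^ (r - 1) := by positivity
  have h1 := hgrow a e h M hM
  have h2 := hstar a e h M hM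
  have hL0 := LL_nonneg h.nonneg (2 * M)
  have hδ2 : δ ^ 2 ≤ δ := by nlinarith
  have h3 : LL a (2 * M) ≤ 2 * C3 * δ := by
    have : C3 * (LL a M + ff e (2 * M)) ≤ C3 * (δ + δ) :=
      mul_le_mul_of_nonneg_left (by linarith) (by linarith)
    linarith
  have h4 : LL a (2 * M) ^ 2 ≤ 4 * C3 ^ 2 * δ ^ 2 := by
    calc LL a (2 * M) ^ 2 ≤ (2 * C3 * δ) ^ 2 := pow_le_pow_left₀ hL0 h3 2
      _ = _ := by ring
  have h5 : ∑ p ∈ PN (2 * M) \ PN M, a p ^ r * (lg p / p) ≤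
      M * (C2 * (4 * C3 ^ 2 + 1)) * δ ^ 2 := by
    calc _ ≤ _ := h2
      _ ≤ C2 * M * (4 * C3 ^ 2 * δ ^ 2 + δ ^ 2) :=
        mul_le_mul_of_nonneg_left (by linarith) (by positivity)
      _ = _ := by ring
  have h6 : AA (fun p => max (a p - g) 0) (2 * M) ≤ AA a M +
      (∑ p ∈ PN (2 * M) \ PN M, a p ^ r * (lg p / p)) / g ^ (r - 1) := by
    unfold AA
    rw [sum_PN_split _ (show M ≤ 2 * M by omega), Finset.sum_div]
    apply add_le_add
    · apply Finset.sum_le_sum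
      intro p _
      apply mul_le_mul_of_nonneg_right _ (div_nonneg (lg_nonneg p) (Nat.cast_nonneg p))
      exact max_le (by linarith) (h.nonneg p)
    · apply Finset.sum_le_sum
      intro p _
      have := mul_le_mul_of_nonneg_right (trunc_le_pow hr (h.nonneg p) hg)
        (div_nonneg (lg_nonneg p) (Nat.cast_nonneg p))
      calc _ ≤ _ := this
        _ = _ := by ring
  have h7 : AA a M ≤ δ * M := by
    unfold LL at hL
    rwa [div_le_iff₀ (by linarith)] at hL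
  have h8 : (∑ p ∈ PN (2 * M) \ PN M, a p ^ r * (lg p / p)) / g ^ (r - 1) ≤ M * δ / 4 := by
    rw [div_le_iff₀ hgp, hgr]
    calc _ ≤ _ := h5
      _ = _ := by ring
  unfold LL
  rw [div_le_iff₀ (by push_cast; linarith)]
  push_cast
  linarith

/-- the stability lemma -/
theorem stability (hN1 : StmtN1) (hN2 : StmtN2) : ∃ r : ℕ, 2 ≤ r ∧
    ∀ σ : ℝ, 0 < σ → σ < 1 → 5 / 8 ≤ σ ^ (r - 1) → ∀ ε : ℝ, 0 < ε → ε ≤ 1 →
    ∃ δ : ℝ, 0 < δ ∧ δ ≤ 1 ∧ ∀ a e, Adms a e → ∀ N : ℕ, 1 ≤ N → LL a N ≤ δ →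
    (∀ j : ℕ, ff e (2 ^ (j + 1) * N) ≤ (δ * (σ ^ (r - 1)) ^ j) ^ 2) →
    ∀ j : ℕ, LL (fun p => max (a p - ε) 0) (2 ^ j * N) ≤ δ * (σ ^ (r - 1)) ^ j := by
  obtain ⟨r, C2, hr, hC2, hstar⟩ := star hN1 hN2
  obtain ⟨C3, hC3, hgrow⟩ := growth hN1
  refine ⟨r, hr, ?_⟩
  intro σ hσ0 hσ1 hσr ε hε0 hε1
  set ρ := σ ^ (r - 1) with hρ
  set C4 := C2 * (4 * C3 ^ 2 + 1) with hC4
  have hC41 : 1 ≤ C4 := by
    rw [hC4]
    have : 1 ≤ 4 * C3 ^ 2 + 1 := by nlinarith [sq_nonneg C3]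
    nlinarith [sq_nonneg C3]
  set G := ε * (1 - σ) with hG
  have hG0 : 0 < G := mul_pos hε0 (by linarith)
  have hG1 : G ≤ 1 := by
    rw [hG]; nlinarith
  set δ := G ^ (r - 1) / (4 * C4) with hδ
  have hδ0 : 0 < δ := by positivity
  have hδ1 : δ ≤ 1 := by
    rw [hδ, div_le_one (by positivity)]
    have : G ^ (r - 1) ≤ 1 := pow_le_one₀ hG0.le hG1
    linarith
  have hρ0 : 0 < ρ := by positivity
  have hρ1 : ρ ≤ 1 := pow_le_one₀ hσ0.le hσ1.le
  refine ⟨δ, hδ0, hδ1, ?_⟩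
  intro a e h N hN hL hf
  have key : ∀ j : ℕ, LL (fun p => max (a p - ε * (1 - σ ^ j)) 0) (2 ^ j * N) ≤ δ * ρ ^ j := by
    intro j
    induction j with
    | zero =>
      have e1 : (fun p => max (a p - ε * (1 - σ ^ 0)) 0) = a := by
        funext p
        rw [pow_zero, sub_self, mul_zero, sub_zero, max_eq_left (h.nonneg p)]
      rw [e1, pow_zero, pow_zero, one_mul, mul_one]
      exact hL
    | succ j ih =>
      have hy0 : 0 ≤ ε * (1 - σ ^ j) :=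
        mul_nonneg hε0.le (by have := pow_le_one₀ (n := j) hσ0.le hσ1.le; linarith)
      have hadm := h.trunc hy0
      have hg : 0 < G * σ ^ j := by positivity
      have hρj : ρ ^ j ≤ 1 := pow_le_one₀ hρ0.le hρ1
      have hρj0 : 0 < ρ ^ j := by positivity
      have hM : 1 ≤ 2 ^ j * N := Nat.one_le_iff_ne_zero.2 (by positivity)
      have hδj1 : δ * ρ ^ j ≤ 1 := by nlinarith
      have hgr : (G * σ ^ j) ^ (r - 1) = 4 * (C2 * (4 * C3 ^ 2 + 1)) * (δ * ρ ^ j) := by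
        rw [mul_pow, ← pow_mul, mul_comm j, pow_mul, ← hρ, ← hC4, hδ]
        field_simp
      have e2 : 2 ^ (j + 1) * N = 2 * (2 ^ j * N) := by ring
      have hff := hf j
      rw [e2] at hff
      have hstep := stab_step hr hC2 hC3 hgrow hstar hadm hM (by positivity) hδj1 hg hgr ih hff
      have e3 : (fun p => max (max (a p - ε * (1 - σ ^ j)) 0 - G * σ ^ j) 0) =
          (fun p => max (a p - ε * (1 - σ ^ (j + 1))) 0) := by
        funext p
        have e4 : ε * (1 - σ ^ (j + 1)) = ε * (1 - σ ^ j) + G * σ ^ j := by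
          rw [hG, pow_succ]; ring
        rw [e4]
        rcases le_total (a p - ε * (1 - σ ^ j)) 0 with h1 | h1
        · rw [max_eq_right h1, max_eq_right (by linarith), max_eq_right (by linarith)]
        · rw [max_eq_left h1]
          congr 1
          ring
      rw [e2, ← e3]
      calc _ ≤ _ := hstep
        _ ≤ ρ * (δ * ρ ^ j) := mul_le_mul_of_nonneg_right hσr (by positivity)
        _ = _ := by rw [pow_succ]; ring
  intro j
  refine le_trans (LL_le_LL (fun p => ?_) _) (key j)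
  apply max_le_max _ le_rfl
  have : 0 ≤ ε * σ ^ j := by positivity
  linarith

end Pool.Agent.Helper94.Tot
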