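import Pool.Agent.Helper94.Tot.Soft4

/-!
# Normal order of the iterated totient class: decay along the dyadic scale
-/

set_option autoImplicit false

open Finset Filter Topology

namespace Pool.Agent.Helper94.Tot

/-- decay at rate `ρ` per doubling -/
def Dec (ρ : ℝ) (F : ℕ → ℝ) : Prop :=
  ∀ κ : ℝ, 0 < κ → ∃ T0 : ℕ, 1 ≤ T0 ∧ ∀ T : ℕ, T0 ≤ T → ∀ j : ℕ, F (2 ^ j * T) ≤ κ * ρ ^ j

theorem Dec.mono {ρ : ℝ} {F G : ℕ → ℝ} (h : Dec ρ G) (hFG : ∀ n, 1 ≤ n → F n ≤ G n) :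
    Dec ρ F := by
  intro κ hκ
  obtain ⟨T0, h1, h2⟩ := h κ hκ
  refine ⟨T0, h1, fun T hT j => (hFG _ ?_).trans (h2 T hT j)⟩
  have : 1 ≤ T := h1.trans hT
  exact Nat.one_le_iff_ne_zero.2 (by positivity)

theorem Dec.add {ρ : ℝ} {F G : ℕ → ℝ} (h : Dec ρ F) (h' : Dec ρ G) :
    Dec ρ (fun n => F n + G n) := by
  intro κ hκ
  obtain ⟨T0, h1, h2⟩ := h (κ / 2) (by positivity)
  obtain ⟨T1, h3, h4⟩ := h' (κ / 2) (by positivity)
  refine ⟨max T0 T1, h1.trans (le_max_left _ _), fun T hT j => ?_⟩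
  have a1 := h2 T ((le_max_left _ _).trans hT) j
  have a2 := h4 T ((le_max_right _ _).trans hT) j
  simp only []
  linarith

theorem Dec.const_mul {ρ : ℝ} {F : ℕ → ℝ} (h : Dec ρ F) {c : ℝ} (hc : 0 < c) :
    Dec ρ (fun n => c * F n) := by
  intro κ hκ
  obtain ⟨T0, h1, h2⟩ := h (κ / c) (by positivity)
  refine ⟨T0, h1, fun T hT j => ?_⟩
  have a1 := mul_le_mul_of_nonneg_left (h2 T hT j) hc.le
  calc c * F (2 ^ j * T) ≤ _ := a1
    _ = _ := by field_simp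

theorem Dec.tendsto {ρ : ℝ} {F : ℕ → ℝ} (h : Dec ρ F) (h0 : ∀ n, 0 ≤ F n) :
    Tendsto F atTop (𝓝 0) := by
  rw [Metric.tendsto_atTop]
  intro κ hκ
  obtain ⟨T0, h1, h2⟩ := h (κ / 2) (by positivity)
  refine ⟨T0, fun T hT => ?_⟩
  have := h2 T hT 0
  simp only [pow_zero, one_mul, mul_one] at this
  rw [Real.dist_eq, sub_zero, abs_of_nonneg (h0 T)]
  linarith

theorem dec_sqrt {ρ : ℝ} (hρ : 0 ≤ ρ) (hρ2 : 1 / 2 ≤ ρ ^ 2) : Dec ρ (fun n => 1 / √(n : ℝ)) := by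
  intro κ hκ
  obtain ⟨T0, hT0⟩ := exists_nat_gt (1 / κ ^ 2)
  refine ⟨max T0 1, le_max_right _ _, fun T hT j => ?_⟩
  have hT1 : 1 ≤ T := (le_max_right _ _).trans hT
  have hTr : 1 / κ ^ 2 < T := hT0.trans_le (by exact_mod_cast (le_max_left _ _).trans hT)
  have hTpos : (0 : ℝ) < T := by exact_mod_cast hT1
  have hs : 0 < √((2 ^ j * T : ℕ) : ℝ) := Real.sqrt_pos.2 (by exact_mod_cast (by positivity))
  rw [div_le_iff₀ hs]
  have h1 : 1 ≤ ρ ^ (2 * j) * 2 ^ j := by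
    rw [pow_mul, ← mul_pow]
    exact one_le_pow₀ (by linarith)
  have h2 : 1 ≤ κ ^ 2 * T := by
    rw [div_lt_iff₀ (by positivity)] at hTr
    linarith
  have h3 : (1 : ℝ) ^ 2 ≤ (κ * ρ ^ j * √((2 ^ j * T : ℕ) : ℝ)) ^ 2 := by
    rw [mul_pow, mul_pow, Real.sq_sqrt (Nat.cast_nonneg _), ← pow_mul, mul_comm j 2]
    push_cast
    calc (1 : ℝ) ^ 2 = 1 * 1 := by ring
      _ ≤ (κ ^ 2 * T) * (ρ ^ (2 * j) * 2 ^ j) := mul_le_mul h2 h1 (by norm_num) (by linarith)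
      _ = _ := by ring
  exact le_of_sq_le_sq_of_nonneg h3 (by positivity)
where
  le_of_sq_le_sq_of_nonneg {a b : ℝ} (h : a ^ 2 ≤ b ^ 2) (hb : 0 ≤ b) : a ≤ b := by
    exact le_of_sq_le_sq h hb
  le_of_sq_le_sq {a b : ℝ} (h : a ^ 2 ≤ b ^ 2) (hb : 0 ≤ b) : a ≤ b := by
    by_contra hcon
    push Not at hcon
    nlinarith

theorem LL_double {b : ℕ → ℝ} (hb : ∀ p, 0 ≤ b p) {m n : ℕ} (hm : 1 ≤ m) (hmn : m ≤ n)
    (hn : n ≤ 2 * m) : LL b m ≤ 2 * LL b n := by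
  unfold LL
  have hm0 : (0 : ℝ) < m := by exact_mod_cast hm
  have hn0 : (0 : ℝ) < n := by exact_mod_cast (by omega : 0 < n)
  have h1 := AA_mono hb hmn
  have h2 := AA_nonneg hb n
  have h3 : (n : ℝ) ≤ 2 * m := by exact_mod_cast hn
  rw [show 2 * (AA b n / n) = (2 * AA b n) / n by ring, div_le_div_iff₀ hm0 hn0]
  have h4 := AA_nonneg hb m
  nlinarith

/-- the stability lemma in the form of decay -/
theorem stab_dec {r : ℕ} {σ ε δ : ℝ} (hσ0 : 0 < σ) (hσ1 : σ < 1) (hr : 2 ≤ r) (hδ : 0 < δ)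
    (hst : ∀ a e, Adms a e → ∀ N : ℕ, 1 ≤ N → LL a N ≤ δ →
      (∀ j : ℕ, ff e (2 ^ (j + 1) * N) ≤ (δ * (σ ^ (r - 1)) ^ j) ^ 2) →
      ∀ j : ℕ, LL (fun p => max (a p - ε) 0) (2 ^ j * N) ≤ δ * (σ ^ (r - 1)) ^ j)
    {a e : ℕ → ℝ} (h : Adms a e) (hdec : Dec ((σ ^ (r - 1)) ^ 2) (ff e))
    (hfreq : ∀ N0 : ℕ, ∃ N : ℕ, N0 ≤ N ∧ LL a N ≤ δ) :
    Dec (σ ^ (r - 1)) (LL (fun p => max (a p - ε) 0)) := by
  set ρ := σ ^ (r - 1) with hρ
  have hρ0 : 0 < ρ := by positivity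
  have hρ1 : ρ < 1 := pow_lt_one₀ hσ0.le hσ1 (by omega)
  obtain ⟨T0, hT0, hT⟩ := hdec (δ ^ 2) (by positivity)
  obtain ⟨N, hN, hLN⟩ := hfreq T0
  have hN1 : 1 ≤ N := hT0.trans hN
  have key := hst a e h N hN1 hLN (fun j => by
    have h1 := hT N hN (j + 1)
    refine h1.trans ?_
    rw [mul_pow]
    apply mul_le_mul_of_nonneg_left _ (by positivity)
    have e1 : (ρ ^ 2) ^ (j + 1) = ρ ^ (2 * (j + 1)) := (pow_mul ρ 2 (j + 1)).symm
    have e2 : (ρ ^ j) ^ 2 = ρ ^ (j * 2) := (pow_mul ρ j 2).symm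
    rw [e1, e2]
    exact pow_le_pow_of_le_one hρ0.le hρ1.le (by omega))
  intro κ hκ
  obtain ⟨J0, hJ0⟩ := exists_pow_lt_of_lt_one (show 0 < κ / (2 * δ) by positivity) hρ1
  refine ⟨2 ^ J0 * N, Nat.one_le_iff_ne_zero.2 (by positivity), fun T hTN j => ?_⟩
  set J := Nat.log 2 (T / N) with hJ
  have hdiv : T / N ≠ 0 := by
    have : N ≤ T := le_trans (Nat.le_mul_of_pos_left N (by positivity)) hTN
    exact (Nat.div_pos this hN1).ne'
  have h1 : 2 ^ J ≤ T / N := Nat.pow_log_le_self 2 hdiv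
  have h2 : T / N < 2 ^ (J + 1) := Nat.lt_pow_succ_log_self (by norm_num) _
  have h3 : 2 ^ J * N ≤ T := by
    calc 2 ^ J * N ≤ (T / N) * N := Nat.mul_le_mul_right _ h1
      _ ≤ T := Nat.div_mul_le_self T N
  have h4 : T < 2 ^ (J + 1) * N := (Nat.div_lt_iff_lt_mul (by omega)).1 h2
  have h5 : J0 ≤ J := by
    apply Nat.le_log_of_pow_le (by norm_num)
    rw [Nat.le_div_iff_mul_le (by omega)]
    exact hTN
  have hb : ∀ p, 0 ≤ (fun p => max (a p - ε) 0) p := fun p => le_max_right _ _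
  have hTpos : 1 ≤ T := le_trans (Nat.one_le_iff_ne_zero.2 (by positivity)) h3
  have h6 : LL (fun p => max (a p - ε) 0) (2 ^ j * T) ≤
      2 * LL (fun p => max (a p - ε) 0) (2 ^ (j + J + 1) * N) := by
    apply LL_double hb (Nat.one_le_iff_ne_zero.2 (by positivity))
    · calc 2 ^ j * T ≤ 2 ^ j * (2 ^ (J + 1) * N) := Nat.mul_le_mul_left _ h4.le
        _ = _ := by ring
    · calc 2 ^ (j + J + 1) * N = 2 * (2 ^ j * (2 ^ J * N)) := by ring
        _ ≤ 2 * (2 ^ j * T) := Nat.mul_le_mul_left _ (Nat.mul_le_mul_left _ h3)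
  have h7 := key (j + J + 1)
  have h8 : ρ ^ (j + J + 1) ≤ ρ ^ j * ρ ^ J0 := by
    rw [← pow_add]
    exact pow_le_pow_of_le_one hρ0.le hρ1.le (by omega)
  have h9 : ρ ^ j * ρ ^ J0 ≤ ρ ^ j * (κ / (2 * δ)) :=
    mul_le_mul_of_nonneg_left hJ0.le (by positivity)
  calc _ ≤ _ := h6
    _ ≤ 2 * (δ * (ρ ^ j * (κ / (2 * δ)))) := by
      apply mul_le_mul_of_nonneg_left _ (by norm_num)
      refine h7.trans (mul_le_mul_of_nonneg_left (h8.trans h9) hδ.le)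
    _ = _ := by field_simp

/-- the averages -/
noncomputable def VV (h : ℕ → ℝ) (N : ℕ) : ℝ := (∑ n ∈ Ico 1 N, LL h (n + 1)) / N

theorem VV_nonneg {h : ℕ → ℝ} (hh : ∀ p, 0 ≤ h p) (n : ℕ) : 0 ≤ VV h n :=
  div_nonneg (Finset.sum_nonneg (fun _ _ => LL_nonneg hh _)) (Nat.cast_nonneg _)

theorem dec_VV {ρ : ℝ} (hρ : 1 / 2 < ρ) (hρ1 : ρ ≤ 1) {h : ℕ → ℝ} (hh : ∀ p, 0 ≤ h p) {B : ℝ}
    (hB : ∀ n, LL h n ≤ B) (hd : Dec ρ (LL h)) : Dec ρ (VV h) := by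
  intro κ hκ
  set κ' := κ * (ρ - 1 / 2) with hκ'
  have hκ0 : 0 < κ' := mul_pos hκ (by linarith)
  have hκh : κ' ≤ κ / 2 := by
    rw [hκ']; nlinarith
  obtain ⟨T0, hT0, hT⟩ := hd κ' hκ0
  have hB0 : 0 ≤ B := (LL_nonneg hh 0).trans (hB 0)
  obtain ⟨T1, hT1⟩ := exists_nat_gt (2 * B * T0 / κ)
  refine ⟨max T0 T1, hT0.trans (le_max_left _ _), fun T hTT => ?_⟩
  have hTT0 : T0 ≤ T := (le_max_left _ _).trans hTT
  have hTT1 : (T1 : ℝ) ≤ T := by exact_mod_cast (le_max_right _ _).trans hTT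
  have hTpos : (0 : ℝ) < T := by exact_mod_cast (by omega : 0 < T)
  set W : ℕ → ℝ := fun N => ∑ n ∈ Ico 1 N, LL h (n + 1) with hW
  have hbase : W T ≤ T * κ := by
    have h1 : W T = ∑ n ∈ Ico 1 T0, LL h (n + 1) + ∑ n ∈ Ico T0 T, LL h (n + 1) :=
      (Finset.sum_Ico_consecutive _ hT0 hTT0).symm
    have h2 : ∑ n ∈ Ico 1 T0, LL h (n + 1) ≤ T0 * B := by
      calc _ ≤ ∑ n ∈ Ico 1 T0, B := Finset.sum_le_sum (fun n _ => hB _)
        _ = ((T0 - 1 : ℕ) : ℝ) * B := by rw [Finset.sum_const, Nat.card_Ico, nsmul_eq_mul]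
        _ ≤ T0 * B := by
          apply mul_le_mul_of_nonneg_right _ hB0
          exact_mod_cast Nat.sub_le _ _
    have h3 : ∑ n ∈ Ico T0 T, LL h (n + 1) ≤ T * κ' := by
      calc _ ≤ ∑ n ∈ Ico T0 T, κ' := by
            apply Finset.sum_le_sum
            intro n hn
            rw [Finset.mem_Ico] at hn
            have := hT (n + 1) (by omega) 0
            simpa using this
        _ = ((T - T0 : ℕ) : ℝ) * κ' := by rw [Finset.sum_const, Nat.card_Ico, nsmul_eq_mul]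
        _ ≤ T * κ' := by
          apply mul_le_mul_of_nonneg_right _ hκ0.le
          exact_mod_cast Nat.sub_le _ _
    have h4 : T0 * B ≤ T * (κ / 2) := by
      have : 2 * B * T0 / κ < T := hT1.trans_le hTT1
      rw [div_lt_iff₀ hκ] at this
      linarith
    rw [h1]
    nlinarith
  have hind : ∀ j : ℕ, W (2 ^ j * T) ≤ ((2 ^ j * T : ℕ) : ℝ) * (κ * ρ ^ j) := by
    intro j
    induction j with
    | zero => simpa using hbase
    | succ j ih =>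
      have hT1 : 0 < T := by omega
      have hM1 : 1 ≤ 2 ^ j * T := Nat.one_le_iff_ne_zero.2 (by positivity)
      set M := 2 ^ j * T with hM
      have e1 : 2 ^ (j + 1) * T = 2 * M := by rw [hM]; ring
      rw [e1]
      have h1 : W (2 * M) = W M + ∑ n ∈ Ico M (2 * M), LL h (n + 1) :=
        (Finset.sum_Ico_consecutive _ hM1 (by omega)).symm
      have h2 : ∑ n ∈ Ico M (2 * M), LL h (n + 1) ≤ M * (2 * (κ' * ρ ^ (j + 1))) := by
        calc _ ≤ ∑ n ∈ Ico M (2 * M), 2 * (κ' * ρ ^ (j + 1)) := by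
              apply Finset.sum_le_sum
              intro n hn
              rw [Finset.mem_Ico] at hn
              have a1 : LL h (n + 1) ≤ 2 * LL h (2 * M) := LL_double hh (by omega) (by omega)
                (by omega)
              have a2 := hT T hTT0 (j + 1)
              rw [e1] at a2
              linarith
          _ = ((2 * M - M : ℕ) : ℝ) * (2 * (κ' * ρ ^ (j + 1))) := by
            rw [Finset.sum_const, Nat.card_Ico, nsmul_eq_mul]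
          _ = _ := by
            have : 2 * M - M = M := by omega
            rw [this]
      have h3 : κ * ρ ^ j / 2 + κ' * ρ ^ (j + 1) ≤ κ * ρ ^ (j + 1) := by
        have hpj : 0 ≤ ρ ^ j := by positivity
        have h4 : κ / 2 + κ' * ρ ≤ κ * ρ := by
          rw [hκ']
          have : κ * ρ - (κ / 2 + κ * (ρ - 1 / 2) * ρ) = κ * (ρ - 1 / 2) * (1 - ρ) := by ring
          have h5 : 0 ≤ κ * (ρ - 1 / 2) * (1 - ρ) :=
            mul_nonneg hκ0.le (by linarith)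
          linarith
        calc κ * ρ ^ j / 2 + κ' * ρ ^ (j + 1) = (κ / 2 + κ' * ρ) * ρ ^ j := by
              rw [pow_succ]; ring
          _ ≤ (κ * ρ) * ρ ^ j := mul_le_mul_of_nonneg_right h4 hpj
          _ = _ := by rw [pow_succ]; ring
      have hM0 : (0 : ℝ) ≤ M := Nat.cast_nonneg _
      rw [h1]
      calc W M + ∑ n ∈ Ico M (2 * M), LL h (n + 1)
          ≤ M * (κ * ρ ^ j) + M * (2 * (κ' * ρ ^ (j + 1))) := add_le_add ih h2
        _ = 2 * M * (κ * ρ ^ j / 2 + κ' * ρ ^ (j + 1)) := by ring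
        _ ≤ 2 * M * (κ * ρ ^ (j + 1)) := mul_le_mul_of_nonneg_left h3 (by positivity)
        _ = _ := by push_cast; ring
  intro j
  have hMpos : (0 : ℝ) < ((2 ^ j * T : ℕ) : ℝ) := by
    have : 0 < 2 ^ j * T := by
      have : 0 < T := by omega
      positivity
    exact_mod_cast this
  unfold VV
  rw [div_le_iff₀ hMpos]
  calc _ ≤ _ := hind j
    _ = _ := by ring

end Pool.Agent.Helper94.Tot
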