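import Pool.Agent.Helper94.Tot.Soft5

/-!
# Normal order of the iterated totient class: bounds for the error terms
-/

set_option autoImplicit false

open Finset Filter Topology

namespace Pool.Agent.Helper94.Tot

theorem mx_nonneg (p : ℕ) : 0 ≤ mx p := by
  unfold mx
  rcases Nat.eq_zero_or_pos (p - 1) with h0 | h0
  · rw [h0]; simp [lg]
  have h1 : ∑ q ∈ (p - 1).primeFactors, lg q = lg (∏ q ∈ (p - 1).primeFactors, q) := by
    unfold lg
    rw [Nat.cast_prod, Real.logb, Real.log_prod]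
    · rw [Finset.sum_div]
      rfl
    · intro q hq
      exact Nat.cast_ne_zero.2 (Nat.prime_of_mem_primeFactors hq).ne_zero
  rw [h1, sub_nonneg]
  unfold lg
  apply Real.logb_le_logb_of_le (by norm_num)
  · have : 0 < ∏ q ∈ (p - 1).primeFactors, q :=
      Finset.prod_pos (fun q hq => (Nat.prime_of_mem_primeFactors hq).pos)
    exact_mod_cast this
  · have : ∏ q ∈ (p - 1).primeFactors, q ≤ p - 1 :=
      Nat.le_of_dvd h0 (Nat.prod_primeFactors_dvd (p - 1))
    exact_mod_cast this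

/-- the error term of the truncated functions -/
noncomputable def err (h : ℕ → ℝ) (θ : ℝ) (p : ℕ) : ℝ :=
  (∑ q ∈ (p - 1).primeFactors, lg q * h q + mx p + 1) / θ

theorem err_nonneg {h : ℕ → ℝ} (hh : ∀ p, 0 ≤ h p) {θ : ℝ} (hθ : 0 < θ) (p : ℕ) :
    0 ≤ err h θ p := by
  unfold err
  have h1 : 0 ≤ ∑ q ∈ (p - 1).primeFactors, lg q * h q :=
    Finset.sum_nonneg (fun q _ => mul_nonneg (lg_nonneg q) (hh q))
  have h2 := mx_nonneg p
  positivity

theorem sum_inv_sqrt (m : ℕ) : ∑ n ∈ Ico 1 (m + 1), 1 / √(n : ℝ) ≤ 2 * √(m : ℝ) := by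
  induction m with
  | zero => simp
  | succ m ih =>
    rw [Finset.sum_Ico_succ_top (by omega)]
    set a := √(m : ℝ) with ha
    set b := √((m + 1 : ℕ) : ℝ) with hb
    have hb0 : 0 < b := Real.sqrt_pos.2 (by positivity)
    have ha2 : a ^ 2 = m := Real.sq_sqrt (Nat.cast_nonneg _)
    have hb2 : b ^ 2 = m + 1 := by
      rw [hb, Real.sq_sqrt (Nat.cast_nonneg _)]; push_cast; ring
    have h1 : 1 / b ≤ 2 * b - 2 * a := by
      rw [div_le_iff₀ hb0]
      nlinarith [sq_nonneg (a - b)]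
    linarith

theorem sum_PN_eq (F : ℕ → ℝ) (N : ℕ) : ∑ p ∈ PN N, F p = ∑ n ∈ range N, ∑ p ∈ DB n, F p := by
  induction N with
  | zero => rw [PN_zero]; simp
  | succ N ih => rw [sum_PN_succ, ih, Finset.sum_range_succ]

theorem DB_zero : DB 0 = {2} := by
  ext p
  rw [mem_DB, Finset.mem_singleton]
  constructor
  · rintro ⟨⟨h1, h2⟩, _⟩
    simp at h1 h2
    omega
  · rintro rfl
    exact ⟨by norm_num, Nat.prime_two⟩

/-- bound for the normalized error -/
theorem ff_bound (hN1 : StmtN1) (hMX : StmtMX) : ∃ C : ℝ, 0 < C ∧ ∀ h : ℕ → ℝ,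
    (∀ p, 0 ≤ h p ∧ h p ≤ 1) → ∀ θ : ℝ, 0 < θ → θ ≤ 1 → ∀ N : ℕ, 1 ≤ N →
    ff (err h θ) N ≤ C / θ * (1 / √N + VV h N) := by
  obtain ⟨C1, hC1, h1⟩ := hN1
  obtain ⟨C4, hC4, h4⟩ := hMX
  refine ⟨2 + 4 * C1 + 2 * C4, by positivity, ?_⟩
  intro h hh θ hθ hθ1 N hN
  have hN0 : (1 : ℝ) ≤ N := by exact_mod_cast hN
  have hsN : 0 < √(N : ℝ) := Real.sqrt_pos.2 (by linarith)
  set G : ℕ → ℝ := fun p => ∑ q ∈ (p - 1).primeFactors, lg q * h q + mx p + 1 with hG
  have hG0 : ∀ p, 0 ≤ G p := by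
    intro p
    have a1 : 0 ≤ ∑ q ∈ (p - 1).primeFactors, lg q * h q :=
      Finset.sum_nonneg (fun q _ => mul_nonneg (lg_nonneg q) (hh q).1)
    have a2 := mx_nonneg p
    rw [hG]; simp only []; linarith
  have hEr : Er (err h θ) N ≤ (1 / θ) * ∑ p ∈ PN N, G p / p := by
    unfold Er
    rw [Finset.mul_sum]
    apply Finset.sum_le_sum
    intro p _
    have : min (err h θ p) (lg p) / p ≤ err h θ p / p :=
      div_le_div_of_nonneg_right (min_le_left _ _) (Nat.cast_nonneg p)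
    calc _ ≤ _ := this
      _ = _ := by unfold err; rw [hG]; ring
  have hblock : ∀ n, 1 ≤ n → ∑ p ∈ DB n, G p / p ≤
      2 * C1 * LL h (n + 1) + (2 * C1 + C4) * (1 / √(n : ℝ)) := by
    intro n hn
    have hn0 : (1 : ℝ) ≤ n := by exact_mod_cast hn
    have hsq : 0 < √(n : ℝ) := Real.sqrt_pos.2 (by linarith)
    have b1 : ∑ p ∈ DB n, G p / p ≤ (1 / 2 ^ n) * ∑ p ∈ DB n, G p := by
      rw [Finset.mul_sum]
      apply Finset.sum_le_sum
      intro p hp
      have := mul_le_mul_of_nonneg_left (inv_DB hp) (hG0 p)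
      calc G p / p = G p * (1 / p) := by ring
        _ ≤ _ := this
        _ = _ := by ring
    have b2 : ∑ p ∈ DB n, G p = ∑ p ∈ DB n, ∑ q ∈ (p - 1).primeFactors, lg q * h q +
        ∑ p ∈ DB n, (mx p + 1) := by
      rw [← Finset.sum_add_distrib]
      apply Finset.sum_congr rfl
      intro p _
      rw [hG]; ring
    have k1 := h1 n hn (fun q => lg q * h q) ((n : ℝ) + 1)
      (fun q => mul_nonneg (lg_nonneg q) (hh q).1) (by
        intro q hq
        have e1 := lg_PN hq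
        push_cast at e1
        have e2 := mul_le_mul_of_nonneg_left (hh q).2 (lg_nonneg q)
        linarith)
    have e3 : ∑ q ∈ PN (n + 1), (lg q * h q) / (q : ℝ) = AA h (n + 1) := by
      unfold AA
      exact Finset.sum_congr rfl (fun q _ => by ring)
    simp only [e3] at k1
    have k2 := h4 n hn
    have e4 : AA h (n + 1) = LL h (n + 1) * (n + 1) := by
      unfold LL
      push_cast
      field_simp
    have hL := LL_nonneg (fun p => (hh p).1) (n + 1)
    rw [e4] at k1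
    have hn1 : ((n : ℝ) + 1) / n ≤ 2 := by
      rw [div_le_iff₀ (by linarith)]; linarith
    calc _ ≤ _ := b1
      _ ≤ (1 / 2 ^ n) * ((C1 * (2 ^ n / n) * (LL h (n + 1) * (n + 1)) +
          C1 * ((n : ℝ) + 1) * 2 ^ n / (n * √n)) + C4 * 2 ^ n / √n) := by
        apply mul_le_mul_of_nonneg_left _ (by positivity)
        rw [b2]
        exact add_le_add k1 k2
      _ = C1 * LL h (n + 1) * (((n : ℝ) + 1) / n) + C1 * (1 / √n) * (((n : ℝ) + 1) / n) +
          C4 * (1 / √n) := by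
        field_simp
      _ ≤ C1 * LL h (n + 1) * 2 + C1 * (1 / √n) * 2 + C4 * (1 / √n) := by
        have u1 : C1 * LL h (n + 1) * (((n : ℝ) + 1) / n) ≤ C1 * LL h (n + 1) * 2 :=
          mul_le_mul_of_nonneg_left hn1 (by positivity)
        have u2 : C1 * (1 / √(n : ℝ)) * (((n : ℝ) + 1) / n) ≤ C1 * (1 / √n) * 2 :=
          mul_le_mul_of_nonneg_left hn1 (by positivity)
        linarith
      _ = _ := by ring
  have hsum : ∑ p ∈ PN N, G p / p ≤ 1 + 2 * C1 * (N * VV h N) +
      (2 * C1 + C4) * (2 * √(N : ℝ)) := by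
    rw [sum_PN_eq, Finset.range_eq_Ico, ← Finset.sum_Ico_consecutive _ (Nat.zero_le 1) hN]
    have c1 : ∑ n ∈ Ico 0 1, ∑ p ∈ DB n, G p / p ≤ 1 := by
      rw [Nat.Ico_succ_singleton, Finset.sum_singleton, DB_zero, Finset.sum_singleton]
      rw [hG]
      simp [mx, lg]
      norm_num
    have c2 : ∑ n ∈ Ico 1 N, ∑ p ∈ DB n, G p / p ≤ ∑ n ∈ Ico 1 N,
        (2 * C1 * LL h (n + 1) + (2 * C1 + C4) * (1 / √(n : ℝ))) := by
      apply Finset.sum_le_sum
      intro n hn
      exact hblock n (Finset.mem_Ico.1 hn).1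
    rw [Finset.sum_add_distrib, ← Finset.mul_sum, ← Finset.mul_sum] at c2
    have c3 : ∑ n ∈ Ico 1 N, 1 / √(n : ℝ) ≤ 2 * √(N : ℝ) := by
      obtain ⟨m, rfl⟩ : ∃ m, N = m + 1 := ⟨N - 1, by omega⟩
      refine (sum_inv_sqrt m).trans ?_
      apply mul_le_mul_of_nonneg_left _ (by norm_num)
      apply Real.sqrt_le_sqrt
      push_cast
      linarith
    have c4 : ∑ n ∈ Ico 1 N, LL h (n + 1) = N * VV h N := by
      unfold VV
      field_simp
    rw [c4] at c2
    have c5 := mul_le_mul_of_nonneg_left c3 (show (0 : ℝ) ≤ 2 * C1 + C4 by positivity)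
    linarith
  have hVV := VV_nonneg (fun p => (hh p).1) N
  unfold ff
  set s := 1 / √(N : ℝ) with hs
  have hs0 : 0 < s := by positivity
  have e1 : √(N : ℝ) / N = s := by
    rw [hs, div_eq_div_iff (by linarith) hsN.ne', one_mul]
    exact Real.mul_self_sqrt (by linarith)
  have e2 : 1 / (N : ℝ) ≤ s := by
    rw [hs]
    apply one_div_le_one_div_of_le hsN
    rw [Real.sqrt_le_left (by linarith)]
    nlinarith
  have f1 : Er (err h θ) N / N ≤ (1 / θ) * (s + 2 * C1 * VV h N + (2 * C1 + C4) * (2 * s)) := by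
    calc Er (err h θ) N / N ≤ ((1 / θ) * (1 + 2 * C1 * (N * VV h N) +
          (2 * C1 + C4) * (2 * √(N : ℝ)))) / N := by
          apply div_le_div_of_nonneg_right _ (by linarith)
          exact hEr.trans (mul_le_mul_of_nonneg_left hsum (by positivity))
      _ = (1 / θ) * (1 / N + 2 * C1 * VV h N + (2 * C1 + C4) * (2 * (√(N : ℝ) / N))) := by
          field_simp
      _ ≤ _ := by
          rw [e1]
          apply mul_le_mul_of_nonneg_left _ (by positivity)
          linarith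
  have f2 : s ≤ (1 / θ) * s := by
    apply le_mul_of_one_le_left hs0.le
    rw [le_div_iff₀ hθ]; linarith
  calc s + Er (err h θ) N / N ≤ (1 / θ) * s +
        (1 / θ) * (s + 2 * C1 * VV h N + (2 * C1 + C4) * (2 * s)) := add_le_add f2 f1
    _ = (1 / θ) * ((2 + 4 * C1 + 2 * C4) * s + 2 * C1 * VV h N) := by ring
    _ ≤ (1 / θ) * ((2 + 4 * C1 + 2 * C4) * s + (2 + 4 * C1 + 2 * C4) * VV h N) := by
        apply mul_le_mul_of_nonneg_left _ (by positivity)
        have : 2 * C1 * VV h N ≤ (2 + 4 * C1 + 2 * C4) * VV h N :=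
          mul_le_mul_of_nonneg_right (by linarith) hVV
        linarith
    _ = _ := by ring

/-- convergence of the truncated averages -/
def Zt (y : ℕ → ℝ) (τ : ℝ) : Prop := Tendsto (LL (fun p => max (y p - τ) 0)) atTop (𝓝 0)

theorem Zt.mono {y : ℕ → ℝ} {τ τ' : ℝ} (h : Zt y τ) (hτ : τ ≤ τ') : Zt y τ' := by
  refine squeeze_zero (fun n => LL_nonneg (fun p => le_max_right _ _) n) (fun n => ?_) h
  exact LL_le_LL (fun p => max_le_max (by linarith) le_rfl) n

theorem adms_of_sub {y : ℕ → ℝ} (hy : ∀ p, 0 ≤ y p ∧ y p ≤ 1) (hs : Sub y) :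
    Adms y (err (fun _ => 0) 1) := by
  refine ⟨fun p => (hy p).1, fun p => (hy p).2, err_nonneg (fun _ => le_rfl) one_pos, ?_⟩
  intro p hp
  have := hs p hp
  unfold err
  simp only [mul_zero, Finset.sum_const_zero, zero_add, div_one]
  linarith

/-- the normalized truncation is admissible -/
theorem adms_scale {y : ℕ → ℝ} (hy : ∀ p, 0 ≤ y p ∧ y p ≤ 1) (hs : Sub y) {τ θ : ℝ}
    (hτ : 0 ≤ τ) (hθ : 0 < θ) :
    Adms (fun p => min 1 (max (y p - τ) 0 / θ)) (err (fun p => max (y p - (τ + θ)) 0) θ) := by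
  refine ⟨fun p => ?_, fun p => min_le_left _ _, err_nonneg (fun p => le_max_right _ _) hθ, ?_⟩
  · exact le_min zero_le_one (div_nonneg (le_max_right _ _) hθ.le)
  intro p hp
  have h1 := ((adms_of_sub hy hs).trunc hτ).sub p hp
  have h2 : ∀ q, max (y q - τ) 0 ≤ θ * min 1 (max (y q - τ) 0 / θ) + max (y q - (τ + θ)) 0 := by
    intro q
    rcases le_total (max (y q - τ) 0 / θ) 1 with h3 | h3
    · rw [min_eq_right h3]
      have : θ * (max (y q - τ) 0 / θ) = max (y q - τ) 0 := by field_simp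
      rw [this]
      linarith [le_max_right (y q - (τ + θ)) 0]
    · rw [min_eq_left h3]
      rw [le_div_iff₀ hθ, one_mul] at h3
      rcases le_total (y q - τ) 0 with h4 | h4
      · rw [max_eq_right h4] at h3; linarith
      · rw [max_eq_left h4] at h3 ⊢
        rw [max_eq_left (by linarith)]
        linarith
  have h3 : err (fun _ => 0) 1 p = mx p + 1 := by
    unfold err
    simp
  rw [h3] at h1
  have h4 : ∑ q ∈ (p - 1).primeFactors, lg q * max (y q - τ) 0 ≤
      θ * ∑ q ∈ (p - 1).primeFactors, lg q * min 1 (max (y q - τ) 0 / θ) +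
        ∑ q ∈ (p - 1).primeFactors, lg q * max (y q - (τ + θ)) 0 := by
    rw [Finset.mul_sum, ← Finset.sum_add_distrib]
    apply Finset.sum_le_sum
    intro q _
    have := mul_le_mul_of_nonneg_left (h2 q) (lg_nonneg q)
    linarith
  have h5 : lg p * min 1 (max (y p - τ) 0 / θ) ≤ (lg p * max (y p - τ) 0) / θ := by
    calc _ ≤ lg p * (max (y p - τ) 0 / θ) :=
          mul_le_mul_of_nonneg_left (min_le_right _ _) (lg_nonneg p)
      _ = _ := by ring
  refine h5.trans ?_
  rw [div_le_iff₀ hθ]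
  unfold err
  rw [add_mul, div_mul_cancel₀ _ hθ.ne']
  linarith

end Pool.Agent.Helper94.Tot
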