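import Pool.Agent.Helper94.Tot.Soft6

/-!
# Normal order of the iterated totient class: the contraction
-/

set_option autoImplicit false

open Finset Filter Topology

namespace Pool.Agent.Helper94.Tot

/-- decay of the truncation above the upper threshold -/
theorem decay_above {r : ℕ} (hr : 2 ≤ r)
    (hstab : ∀ σ : ℝ, 0 < σ → σ < 1 → 5 / 8 ≤ σ ^ (r - 1) → ∀ ε : ℝ, 0 < ε → ε ≤ 1 →
      ∃ δ : ℝ, 0 < δ ∧ δ ≤ 1 ∧ ∀ a e, Adms a e → ∀ N : ℕ, 1 ≤ N → LL a N ≤ δ →
      (∀ j : ℕ, ff e (2 ^ (j + 1) * N) ≤ (δ * (σ ^ (r - 1)) ^ j) ^ 2) →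
      ∀ j : ℕ, LL (fun p => max (a p - ε) 0) (2 ^ j * N) ≤ δ * (σ ^ (r - 1)) ^ j)
    (hN1 : StmtN1) (hMX : StmtMX) {σ : ℝ} (hσ0 : 0 < σ) (hσ1 : σ < 1)
    (hσr : 17 / 20 ≤ σ ^ (r - 1)) {y : ℕ → ℝ} (hy : ∀ p, 0 ≤ y p ∧ y p ≤ 1) (hs : Sub y)
    {M η : ℝ} (hM : 0 ≤ M) (hη : 0 < η) (hη1 : η ≤ 1) (hZ : ∀ τ, M < τ → Zt y τ) :
    Dec (σ ^ (r - 1)) (LL (fun p => max (y p - (M + η)) 0)) := by
  obtain ⟨δ, hδ, _, hst⟩ := hstab σ hσ0 hσ1 (by linarith) (η / 2) (by linarith) (by linarith)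
  have hadm := (adms_of_sub hy hs).trunc (show 0 ≤ M + η / 2 by linarith only [hM, hη])
  have hdec : Dec ((σ ^ (r - 1)) ^ 2) (ff (err (fun _ => 0) 1)) := by
    obtain ⟨C, hC, hb⟩ := ff_bound hN1 hMX
    have h1 : Dec ((σ ^ (r - 1)) ^ 2) (fun n => C * (1 / √(n : ℝ))) := by
      apply Dec.const_mul _ hC
      apply dec_sqrt (by positivity)
      have h2 : (17 / 20 : ℝ) ^ 2 ≤ (σ ^ (r - 1)) ^ 2 := pow_le_pow_left₀ (by norm_num) hσr 2
      have h3 : ((17 / 20 : ℝ) ^ 2) ^ 2 ≤ ((σ ^ (r - 1)) ^ 2) ^ 2 :=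
        pow_le_pow_left₀ (by norm_num) h2 2
      norm_num at h3 ⊢
      linarith only [hσ0, hσ1, h3]
    apply h1.mono
    intro n hn
    have h2 := hb (fun _ => 0) (fun _ => ⟨le_rfl, zero_le_one⟩) 1 one_pos le_rfl n hn
    have h3 : VV (fun _ => (0 : ℝ)) n = 0 := by
      unfold VV LL AA
      simp
    rw [h3, add_zero, div_one] at h2
    exact h2
  have hfreq : ∀ N0 : ℕ, ∃ N : ℕ, N0 ≤ N ∧ LL (fun p => max (y p - (M + η / 2)) 0) N ≤ δ := by
    intro N0
    have h1 := hZ (M + η / 2) (by linarith only [hη])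
    unfold Zt at h1
    have h2 := (h1.eventually (ge_mem_nhds hδ)).and (eventually_ge_atTop N0)
    obtain ⟨N, hN⟩ := h2.exists
    exact ⟨N, hN.2, hN.1⟩
  have := stab_dec hσ0 hσ1 hr hδ hst hadm hdec hfreq
  have e1 : (fun p => max (max (y p - (M + η / 2)) 0 - η / 2) 0) =
      (fun p => max (y p - (M + η)) 0) := by
    funext p
    rcases le_total (y p - (M + η / 2)) 0 with h1 | h1
    · rw [max_eq_right h1, max_eq_right (by linarith only [hη]), max_eq_right (by linarith only [hη, h1])]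
    · rw [max_eq_left h1]
      congr 1
      ring
  rw [e1] at this
  exact this

/-- the value of a prime with a low large prime factor -/
theorem low_factor {y : ℕ → ℝ} (hs : Sub y) {M η Λ θ : ℝ} (hM : 0 ≤ M) (hη : 0 ≤ η)
    (hθ : 0 < θ) {p q : ℕ} (hp : p.Prime) (hq : q ∈ (p - 1).primeFactors) (hlow : y q ≤ M - Λ)
    (hθp : θ * lg p ≤ Λ * lg q) :
    lg p * min 1 (max (y p - (M + η - θ)) 0 / θ) ≤
      err (fun p => max (y p - (M + η)) 0) θ p := by
  set h : ℕ → ℝ := fun p => max (y p - (M + η)) 0 with hh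
  have hh0 : ∀ p, 0 ≤ h p := fun p => le_max_right _ _
  have h1 := hs p hp
  have h2 : ∑ q' ∈ (p - 1).primeFactors, lg q' * y q' ≤
      (M + η) * ∑ q' ∈ (p - 1).primeFactors, lg q' + ∑ q' ∈ (p - 1).primeFactors, lg q' * h q'
        - Λ * lg q := by
    rw [← Finset.add_sum_erase _ (fun q' => lg q' * y q') hq,
      ← Finset.add_sum_erase _ (fun q' => lg q') hq,
      ← Finset.add_sum_erase _ (fun q' => lg q' * h q') hq]
    have h3 : ∑ q' ∈ (p - 1).primeFactors.erase q, lg q' * y q' ≤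
        (M + η) * ∑ q' ∈ (p - 1).primeFactors.erase q, lg q' +
          ∑ q' ∈ (p - 1).primeFactors.erase q, lg q' * h q' := by
      rw [Finset.mul_sum, ← Finset.sum_add_distrib]
      apply Finset.sum_le_sum
      intro q' _
      have h4 : y q' ≤ M + η + h q' := by
        have := le_max_left (y q' - (M + η)) 0
        rw [hh]; simp only []; linarith
      have := mul_le_mul_of_nonneg_left h4 (lg_nonneg q')
      linarith
    have h5 : lg q * y q ≤ lg q * (M - Λ) := mul_le_mul_of_nonneg_left hlow (lg_nonneg q)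
    have h6 : 0 ≤ lg q * h q := mul_nonneg (lg_nonneg q) (hh0 q)
    have h7 : 0 ≤ η * lg q := mul_nonneg hη (lg_nonneg q)
    linarith only [h3, h5, h6, h7]
  have h3 := mul_le_mul_of_nonneg_left (sum_lg_le hp) (show 0 ≤ M + η by linarith)
  have h4 : lg p * (y p - (M + η - θ)) ≤
      ∑ q' ∈ (p - 1).primeFactors, lg q' * h q' + mx p + 1 := by linarith
  have h5 : 0 ≤ ∑ q' ∈ (p - 1).primeFactors, lg q' * h q' + mx p + 1 := by
    have a1 : 0 ≤ ∑ q' ∈ (p - 1).primeFactors, lg q' * h q' :=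
      Finset.sum_nonneg (fun q _ => mul_nonneg (lg_nonneg q) (hh0 q))
    have a2 := mx_nonneg p
    linarith only [a1, a2]
  have h6 : lg p * max (y p - (M + η - θ)) 0 ≤
      ∑ q' ∈ (p - 1).primeFactors, lg q' * h q' + mx p + 1 := by
    rcases le_total (y p - (M + η - θ)) 0 with h7 | h7
    · rw [max_eq_right h7, mul_zero]; exact h5
    · rw [max_eq_left h7]; exact h4
  unfold err
  rw [le_div_iff₀ hθ]
  calc lg p * min 1 (max (y p - (M + η - θ)) 0 / θ) * θ
      ≤ lg p * (max (y p - (M + η - θ)) 0 / θ) * θ := by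
        apply mul_le_mul_of_nonneg_right _ hθ.le
        exact mul_le_mul_of_nonneg_left (min_le_right _ _) (lg_nonneg p)
    _ = lg p * max (y p - (M + η - θ)) 0 := by field_simp
    _ ≤ _ := h6

/-- the average at the scale `N` -/
theorem avg_bound {C3 CM : ℝ} {c : ℕ} (hC3 : 0 < C3) (hc : 0 < c)
    (hD3 : ∀ n m : ℕ, 1 ≤ n → c * m ≤ n →
      ∀ L : Finset ℕ, (∀ q ∈ L, q.Prime ∧ 5 ≤ q ∧ q ≤ 2 ^ m) →
      (((DB n).filter (fun p => ∀ q ∈ L, ¬ q ∣ p - 1)).card : ℝ)
        ≤ C3 * (2 ^ n / n) * Real.exp (-∑ q ∈ L, 1 / (q : ℝ)))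
    (hM1 : ∀ n : ℕ, |∑ p ∈ PN n, lg p / p - n| ≤ CM)
    {a e : ℕ → ℝ} (h : Adms a e) {m N : ℕ} (hm : 1 ≤ m) (hN : c * m ≤ N) (L : Finset ℕ)
    (hL : ∀ q ∈ L, q.Prime ∧ 5 ≤ q ∧ q ≤ 2 ^ m)
    (hlow : ∀ p ∈ PN N, p ∉ PN (c * m) → ∀ q ∈ L, q ∣ p - 1 → lg p * a p ≤ e p) :
    AA a N ≤ (c * m + CM) + Er e N + 2 * C3 * N * Real.exp (-∑ q ∈ L, 1 / (q : ℝ)) := by
  classical
  set T := c * m with hT
  have hT1 : 1 ≤ T := Nat.one_le_iff_ne_zero.2 (by positivity)
  set X := Real.exp (-∑ q ∈ L, 1 / (q : ℝ)) with hX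
  have hX0 : 0 < X := Real.exp_pos _
  have hw : ∀ p : ℕ, 0 ≤ lg p / p := fun p => div_nonneg (lg_nonneg p) (Nat.cast_nonneg p)
  have h1 : AA a N = ∑ p ∈ PN T, a p * (lg p / p) + ∑ p ∈ PN N \ PN T, a p * (lg p / p) :=
    sum_PN_split _ hN
  have h2 : ∑ p ∈ PN T, a p * (lg p / p) ≤ (T : ℝ) + CM := by
    calc _ ≤ ∑ p ∈ PN T, lg p / p := by
          apply Finset.sum_le_sum
          intro p _
          have := mul_le_mul_of_nonneg_right (h.le_one p) (hw p)
          simpa using this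
      _ ≤ _ := by
        have := (abs_le.1 (hM1 T)).2
        linarith only [this]
  have h3 : ∑ p ∈ PN N \ PN T, a p * (lg p / p) ≤ ∑ p ∈ PN N \ PN T, min (e p) (lg p) / p +
      ∑ p ∈ (PN N \ PN T).filter (fun p => ∀ q ∈ L, ¬ q ∣ p - 1), lg p / p := by
    rw [Finset.sum_filter, ← Finset.sum_add_distrib]
    apply Finset.sum_le_sum
    intro p hp
    rw [Finset.mem_sdiff] at hp
    split_ifs with hq
    · have a1 := mul_le_mul_of_nonneg_right (h.le_one p) (hw p)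
      have a2 := Er_term_nonneg h.err p
      linarith only [a1, a2]
    · push Not at hq
      obtain ⟨q, hqL, hqp⟩ := hq
      rw [add_zero]
      have a1 := hlow p hp.1 hp.2 q hqL hqp
      have a2 : lg p * a p ≤ min (e p) (lg p) := le_min a1 (x_le h p)
      calc a p * (lg p / p) = (lg p * a p) / p := by ring
        _ ≤ _ := div_le_div_of_nonneg_right a2 (Nat.cast_nonneg p)
  have h4 : ∑ p ∈ PN N \ PN T, min (e p) (lg p) / p ≤ Er e N :=
    Finset.sum_le_sum_of_subset_of_nonneg Finset.sdiff_subset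
      (fun p _ _ => Er_term_nonneg h.err p)
  have h5 : ∑ p ∈ (PN N \ PN T).filter (fun p => ∀ q ∈ L, ¬ q ∣ p - 1), lg p / p ≤
      2 * C3 * N * X := by
    rw [Finset.sum_filter]
    have e1 : ∑ p ∈ PN N \ PN T, (if ∀ q ∈ L, ¬ q ∣ p - 1 then lg p / p else 0) =
        ∑ n ∈ Ico T N, ∑ p ∈ DB n, (if ∀ q ∈ L, ¬ q ∣ p - 1 then lg p / p else 0) := by
      have b1 := sum_PN_split (fun p => if ∀ q ∈ L, ¬ q ∣ p - 1 then lg p / (p : ℝ) else 0) hN
      rw [sum_PN_eq, sum_PN_eq, Finset.range_eq_Ico, Finset.range_eq_Ico,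
        ← Finset.sum_Ico_consecutive _ (Nat.zero_le T) hN] at b1
      linarith only [b1]
    rw [e1]
    have e2 : ∀ n ∈ Ico T N, ∑ p ∈ DB n, (if ∀ q ∈ L, ¬ q ∣ p - 1 then lg p / (p : ℝ) else 0) ≤
        2 * C3 * X := by
      intro n hn
      rw [Finset.mem_Ico] at hn
      have hn1 : 1 ≤ n := by omega
      have hn0 : (1 : ℝ) ≤ n := by exact_mod_cast hn1
      have b1 := hD3 n m hn1 hn.1 L hL
      rw [← Finset.sum_filter]
      calc ∑ p ∈ (DB n).filter (fun p => ∀ q ∈ L, ¬ q ∣ p - 1), lg p / (p : ℝ)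
          ≤ ∑ p ∈ (DB n).filter (fun p => ∀ q ∈ L, ¬ q ∣ p - 1), ((n : ℝ) + 1) * (1 / 2 ^ n) := by
            apply Finset.sum_le_sum
            intro p hp
            have hp' := (Finset.mem_filter.1 hp).1
            calc lg p / (p : ℝ) = lg p * (1 / p) := by ring
              _ ≤ _ := mul_le_mul (lg_DB hp').2 (inv_DB hp') (by positivity) (by positivity)
        _ = (((DB n).filter (fun p => ∀ q ∈ L, ¬ q ∣ p - 1)).card : ℝ) *
            (((n : ℝ) + 1) * (1 / 2 ^ n)) := by rw [Finset.sum_const, nsmul_eq_mul]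
        _ ≤ (C3 * (2 ^ n / n) * X) * (((n : ℝ) + 1) * (1 / 2 ^ n)) :=
            mul_le_mul_of_nonneg_right b1 (by positivity)
        _ = C3 * X * (((n : ℝ) + 1) / n) := by field_simp
        _ ≤ C3 * X * 2 := by
            apply mul_le_mul_of_nonneg_left _ (by positivity)
            rw [div_le_iff₀ (by linarith only [hn0])]; linarith only [hn0]
        _ = _ := by ring
    calc _ ≤ _ := Finset.sum_le_sum e2
      _ = ((N - T : ℕ) : ℝ) * (2 * C3 * X) := by rw [Finset.sum_const, Nat.card_Ico, nsmul_eq_mul]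
      _ ≤ N * (2 * C3 * X) := by
        apply mul_le_mul_of_nonneg_right _ (by positivity)
        exact_mod_cast Nat.sub_le _ _
      _ = _ := by ring
  have e3 : (T : ℝ) = c * m := by rw [hT]; push_cast; ring
  rw [e3] at h2
  linarith only [h1, h2, h3, h4, h5]

theorem final_pt (x τ : ℝ) {θ : ℝ} (hθ : 0 < θ) :
    max (x - (τ + θ / 4)) 0 ≤
      θ * max (min 1 (max (x - τ) 0 / θ) - 1 / 4) 0 + max (x - (τ + θ)) 0 := by
  set z := min 1 (max (x - τ) 0 / θ) with hz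
  have h1 : 0 ≤ θ * max (z - 1 / 4) 0 := mul_nonneg hθ.le (le_max_right _ _)
  have h2 : 0 ≤ max (x - (τ + θ)) 0 := le_max_right _ _
  have h6 : θ * (z - 1 / 4) ≤ θ * max (z - 1 / 4) 0 :=
    mul_le_mul_of_nonneg_left (le_max_left _ _) hθ.le
  have h7 : x - (τ + θ) ≤ max (x - (τ + θ)) 0 := le_max_left _ _
  apply max_le _ (by linarith)
  rcases le_total (x - τ) 0 with h3 | h3
  · linarith
  · rcases le_total (max (x - τ) 0 / θ) 1 with h4 | h4
    · have h5 : z = (x - τ) / θ := by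
        rw [hz, min_eq_right h4, max_eq_left h3]
      have h8 : θ * (z - 1 / 4) = x - τ - θ / 4 := by
        rw [h5]; field_simp
      linarith
    · have h5 : z = 1 := by
        rw [hz, min_eq_left h4]
      rw [h5] at h6 ⊢
      linarith

set_option maxHeartbeats 1000000 in
/-- the contraction -/
theorem contraction (hN1 : StmtN1) (hN2 : StmtN2) (hMX : StmtMX) (hM1 : StmtM1) (hD3 : StmtD3) :
    ∃ k : ℕ, ∀ y : ℕ → ℝ, (∀ p, 0 ≤ y p ∧ y p ≤ 1) → Sub y → ∀ M Λ : ℝ, 0 < Λ → Λ ≤ M → M ≤ 1 →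
      (∀ τ, M < τ → Zt y τ) →
      (∀ U0 : ℕ, ∃ U : ℕ, U0 ≤ U ∧
        (k : ℝ) / 8 ≤ ∑ q ∈ (PN (2 ^ k * U) \ PN U).filter (fun q => y q ≤ M - Λ), 1 / (q : ℝ)) →
      ∃ τ, 0 ≤ τ ∧ τ < M ∧ Zt y τ := by
  obtain ⟨r, hr, hstab⟩ := stability hN1 hN2
  obtain ⟨CM, hCM, hM1'⟩ := hM1
  obtain ⟨C3, c, hC3, hc, hD3'⟩ := hD3
  -- the two rates
  set n1 : ℝ := ((r - 1 : ℕ) : ℝ) with hn1
  have hn1' : 1 ≤ n1 := by
    rw [hn1]; exact_mod_cast (by omega : 1 ≤ r - 1)
  set σ1 : ℝ := 1 - 3 / (20 * n1) with hσ1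
  have hx : 3 / (20 * n1) ≤ 3 / 20 := by
    apply div_le_div_of_nonneg_left (by norm_num) (by norm_num) (by linarith)
  have hx0 : 0 < 3 / (20 * n1) := by positivity
  have hσ10 : 17 / 20 ≤ σ1 := by rw [hσ1]; linarith only [hx]
  have hσ11 : σ1 < 1 := by rw [hσ1]; linarith only [hx0]
  have hσ1r : 17 / 20 ≤ σ1 ^ (r - 1) := by
    have h1 := one_add_mul_le_pow (a := -(3 / (20 * n1))) (by linarith only [hx, hx0]) (r - 1)
    have h2 : 1 + ((r - 1 : ℕ) : ℝ) * (-(3 / (20 * n1))) = 17 / 20 := by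
      rw [← hn1]; field_simp; norm_num
    rw [h2] at h1
    have h3 : 1 + -(3 / (20 * n1)) = σ1 := by rw [hσ1]; ring
    rwa [h3] at h1
  set σ2 : ℝ := √σ1 with hσ2
  have hσ20 : 0 < σ2 := Real.sqrt_pos.2 (by linarith only [hx, hx0])
  have hσ2sq : σ2 ^ 2 = σ1 := Real.sq_sqrt (by linarith only [hx, hx0])
  have hσ21 : σ2 < 1 := by
    by_contra hcon
    push Not at hcon
    nlinarith only [hx0, hσ2sq, hcon, hσ20]
  have hσ2r : (σ2 ^ (r - 1)) ^ 2 = σ1 ^ (r - 1) := by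
    rw [← pow_mul, mul_comm, pow_mul, hσ2sq]
  have hσ2r' : 5 / 8 ≤ σ2 ^ (r - 1) := by
    have h1 : 0 < σ2 ^ (r - 1) := by positivity
    by_contra hcon
    push Not at hcon
    nlinarith only [hx, hσ1r, hσ2sq, hσ21, hσ2r, hcon, hσ20, h1]
  obtain ⟨δ, hδ, hδ1, hst⟩ := hstab σ2 hσ20 hσ21 hσ2r' (1 / 4) (by norm_num) (by norm_num)
  obtain ⟨Cf, hCf, hff⟩ := ff_bound hN1 hMX
  -- the parameters
  obtain ⟨K, hK⟩ := exists_nat_gt (4 / δ)
  have hKpos : (0 : ℝ) < K := lt_trans (by positivity) hK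
  have hK1 : 1 ≤ K := by
    have : 0 < K := by exact_mod_cast hKpos
    omega
  obtain ⟨k, hk⟩ := exists_nat_gt (64 * C3 / δ)
  refine ⟨k, ?_⟩
  intro y hy hs M Λ hΛ hΛM hM1'' hZ hfreq
  have hkpos : (0 : ℝ) < k := lt_trans (by positivity) hk
  set D : ℝ := K * c * 2 ^ k with hD
  have hD1 : 1 ≤ D := by
    rw [hD]
    have a1 : (1 : ℝ) ≤ K := by exact_mod_cast hK1
    have a2 : (1 : ℝ) ≤ c := by exact_mod_cast hc
    have a3 : (1 : ℝ) ≤ 2 ^ k := one_le_pow₀ (by norm_num)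
    have a4 : (1 : ℝ) ≤ K * c := by nlinarith only [a2, a1]
    nlinarith only [a1, a3, a2, hx, hx0, a4]
  set θ : ℝ := Λ / D with hθ
  have hθ0 : 0 < θ := by positivity
  have hθΛ : θ ≤ Λ := div_le_self hΛ.le hD1
  have hθ1 : θ ≤ 1 := by linarith only [hΛM, hM1'', hθΛ]
  set η : ℝ := θ / 8 with hη
  have hη0 : 0 < η := by positivity
  have hη1 : η ≤ 1 := by linarith only [hx, hx0, hΛM, hM1'', hθΛ, hη]
  have hM0 : 0 ≤ M := by linarith only [hΛ, hΛM]
  set τ : ℝ := M + η - θ with hτ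
  have hτ0 : 0 ≤ τ := by linarith only [hΛM, hθΛ, hη0]
  set h : ℕ → ℝ := fun p => max (y p - (M + η)) 0 with hh
  have hh01 : ∀ p, 0 ≤ h p ∧ h p ≤ 1 := fun p =>
    ⟨le_max_right _ _, max_le (by linarith only [hΛ, hΛM, hη0, hy, (hy p).2]) zero_le_one⟩
  have hdech : Dec (σ1 ^ (r - 1)) (LL h) :=
    decay_above hr hstab hN1 hMX (by linarith only [hx]) hσ11 hσ1r hy hs hM0 hη0 hη1 hZ
  have hLB : ∀ n, LL h n ≤ 1 + CM := by
    intro n
    unfold LL
    rcases Nat.eq_zero_or_pos n with h0 | h0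
    · subst h0; simp; linarith only [hCM]
    have hn0 : (1 : ℝ) ≤ n := by exact_mod_cast h0
    rw [div_le_iff₀ (by linarith only [hn0])]
    have b1 : AA h n ≤ ∑ p ∈ PN n, lg p / p := by
      apply Finset.sum_le_sum
      intro p _
      have := mul_le_mul_of_nonneg_right (hh01 p).2
        (div_nonneg (lg_nonneg p) (Nat.cast_nonneg p))
      simpa using this
    have b2 := (abs_le.1 (hM1' n)).2
    nlinarith only [b1, b2, hCM, hn0]
  have hdecV : Dec (σ1 ^ (r - 1)) (VV h) :=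
    dec_VV (by linarith only [hσ1r]) (pow_le_one₀ (by linarith only [hx]) hσ11.le) (fun p => (hh01 p).1) hLB hdech
  have hdecf : Dec ((σ2 ^ (r - 1)) ^ 2) (ff (err h θ)) := by
    rw [hσ2r]
    have h1 : Dec (σ1 ^ (r - 1)) (fun n => Cf / θ * (1 / √(n : ℝ) + VV h n)) := by
      refine Dec.const_mul (F := fun n => 1 / √(n : ℝ) + VV h n) ?_ (by positivity)
      refine Dec.add (dec_sqrt (by positivity) ?_) hdecV
      have h2 : (17 / 20 : ℝ) ^ 2 ≤ (σ1 ^ (r - 1)) ^ 2 := pow_le_pow_left₀ (by norm_num) hσ1r 2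
      norm_num at h2 ⊢
      linarith only [h2]
    exact h1.mono (fun n hn => hff h hh01 θ hθ0 hθ1 n hn)
  set a : ℕ → ℝ := fun p => min 1 (max (y p - τ) 0 / θ) with ha
  have hadm : Adms a (err h θ) := by
    have h1 := adms_scale hy hs hτ0 hθ0
    have h2 : τ + θ = M + η := by rw [hτ]; ring
    rw [h2] at h1
    exact h1
  -- the average is small at arbitrarily large scales
  have hsmall : ∀ N0 : ℕ, ∃ N : ℕ, N0 ≤ N ∧ LL a N ≤ δ := by
    intro N0
    obtain ⟨T1, hT1, hT1'⟩ := hdecf (δ / 4) (by positivity)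
    obtain ⟨T2, hT2⟩ := exists_nat_gt (4 * CM / δ)
    obtain ⟨U, hU0, hU⟩ := hfreq (max (max N0 T1) (max T2 3))
    have hUN0 : N0 ≤ U := le_trans (le_trans (le_max_left _ _) (le_max_left _ _)) hU0
    have hUT1 : T1 ≤ U := le_trans (le_trans (le_max_right _ _) (le_max_left _ _)) hU0
    have hUT2 : T2 ≤ U := le_trans (le_trans (le_max_left _ _) (le_max_right _ _)) hU0
    have hU3 : 3 ≤ U := le_trans (le_trans (le_max_right _ _) (le_max_right _ _)) hU0
    set m := 2 ^ k * U with hm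
    set N := K * (c * m) with hN
    have hm1 : 1 ≤ m := Nat.one_le_iff_ne_zero.2 (by have : 0 < U := by omega
                                                     positivity)
    have hcm : 1 ≤ c * m := Nat.one_le_iff_ne_zero.2 (by positivity)
    have hUm : U ≤ m := Nat.le_mul_of_pos_left U (by positivity)
    have hmcm : m ≤ c * m := Nat.le_mul_of_pos_left m hc
    have hcmN : c * m ≤ N := Nat.le_mul_of_pos_left _ hK1
    have hUN : U ≤ N := by omega
    have hNpos : (0 : ℝ) < N := by exact_mod_cast (by omega : 0 < N)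
    have hUD : (U : ℝ) * D = N := by
      rw [hN, hm, hD]; push_cast; ring
    refine ⟨N, hUN0.trans hUN, ?_⟩
    set L := (PN m \ PN U).filter (fun q => y q ≤ M - Λ) with hL
    have hLq : ∀ q ∈ L, q.Prime ∧ 5 ≤ q ∧ q ≤ 2 ^ m := by
      intro q hq
      rw [hL, Finset.mem_filter, Finset.mem_sdiff, mem_PN, mem_PN] at hq
      refine ⟨hq.1.1.2, ?_, hq.1.1.1⟩
      by_contra hcon
      push Not at hcon
      apply hq.1.2
      refine ⟨?_, hq.1.1.2⟩
      have : 2 ^ 3 ≤ 2 ^ U := Nat.pow_le_pow_right (by norm_num) hU3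
      omega
    have hlow : ∀ p ∈ PN N, p ∉ PN (c * m) → ∀ q ∈ L, q ∣ p - 1 → lg p * a p ≤ err h θ p := by
      intro p hp _ q hq hqp
      have hpp := (mem_PN.1 hp).2
      have hqq := hLq q hq
      rw [hL, Finset.mem_filter, Finset.mem_sdiff] at hq
      have hqU : 2 ^ U ≤ q := by
        by_contra hcon
        exact hq.1.2 (mem_PN.2 ⟨by omega, hqq.1⟩)
      have hlq : (U : ℝ) ≤ lg q := le_lg_of_le hqU
      have hlp : lg p ≤ N := lg_PN hp
      apply low_factor hs hM0 hη0.le hθ0 hpp (q := q) (Λ := Λ) _ hq.2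
      · calc θ * lg p ≤ θ * N := mul_le_mul_of_nonneg_left hlp hθ0.le
          _ = Λ * U := by
            rw [← hUD, hθ]; field_simp
          _ ≤ Λ * lg q := mul_le_mul_of_nonneg_left hlq hΛ.le
      · rw [Nat.mem_primeFactors]
        exact ⟨hqq.1, hqp, by have := hpp.two_le; omega⟩
    have hav := avg_bound hC3 hc hD3' hM1' hadm hm1 hcmN L hLq hlow
    have hexp : Real.exp (-∑ q ∈ L, 1 / (q : ℝ)) ≤ 8 / k := by
      have b1 : Real.exp (-∑ q ∈ L, 1 / (q : ℝ)) ≤ Real.exp (-((k : ℝ) / 8)) :=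
        Real.exp_le_exp.2 (by linarith only [hU])
      have b2 : Real.exp (-((k : ℝ) / 8)) ≤ 8 / k := by
        rw [Real.exp_neg, inv_eq_one_div, div_le_div_iff₀ (Real.exp_pos _) hkpos]
        have := Real.add_one_le_exp ((k : ℝ) / 8)
        linarith only [this]
      linarith only [b1, b2]
    have hE : ff (err h θ) N ≤ δ / 4 := by
      have := hT1' N (hUT1.trans hUN) 0
      simpa using this
    have hE2 : Er (err h θ) N / N ≤ δ / 4 := by
      have : ff (err h θ) N = 1 / √(N : ℝ) + Er (err h θ) N / N := rfl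
      have h3 : 0 < 1 / √(N : ℝ) := by
        have : 0 < √(N : ℝ) := Real.sqrt_pos.2 hNpos
        positivity
      linarith only [hE, this, h3]
    unfold LL
    calc AA a N / N ≤ ((c * m + CM) + Er (err h θ) N +
          2 * C3 * N * Real.exp (-∑ q ∈ L, 1 / (q : ℝ))) / N :=
          div_le_div_of_nonneg_right hav hNpos.le
      _ = (c * m : ℝ) / N + CM / N + Er (err h θ) N / N +
          2 * C3 * Real.exp (-∑ q ∈ L, 1 / (q : ℝ)) := by
          field_simp
      _ ≤ δ / 4 + δ / 4 + δ / 4 + δ / 4 := by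
          have d1 : (c * m : ℝ) / N ≤ δ / 4 := by
            have e1 : (N : ℝ) = K * (c * m) := by rw [hN]; push_cast; ring
            have hcm0 : (0 : ℝ) < c * m := by
              have : (1 : ℝ) ≤ ((c * m : ℕ) : ℝ) := by exact_mod_cast hcm
              push_cast at this; linarith only [this]
            rw [e1, div_le_iff₀ (by positivity)]
            rw [div_lt_iff₀ hδ] at hK
            nlinarith only [hK, hNpos, e1]
          have d2 : CM / N ≤ δ / 4 := by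
            rw [div_le_iff₀ hNpos]
            have e1 : (T2 : ℝ) ≤ N := by exact_mod_cast hUT2.trans hUN
            rw [div_lt_iff₀ hδ] at hT2
            nlinarith only [hx, hT2, hx0, hδ, e1]
          have d3 : 2 * C3 * Real.exp (-∑ q ∈ L, 1 / (q : ℝ)) ≤ δ / 4 := by
            calc _ ≤ 2 * C3 * (8 / k) := mul_le_mul_of_nonneg_left hexp (by positivity)
              _ ≤ δ / 4 := by
                rw [mul_div_assoc', div_le_iff₀ hkpos]
                rw [div_lt_iff₀ hδ] at hk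
                linarith only [hk]
          linarith only [hE2, d1, d2, d3]
      _ = δ := by ring
  have hdeca := stab_dec hσ20 hσ21 hr hδ hst hadm hdecf hsmall
  have hta := hdeca.tendsto (fun n => LL_nonneg (fun p => le_max_right _ _) n)
  have hth := hdech.tendsto (fun n => LL_nonneg (fun p => (hh01 p).1) n)
  refine ⟨τ + θ / 4, by positivity, by rw [hτ, hη]; linarith only [hθ0], ?_⟩
  unfold Zt
  have hsum := (hta.const_mul θ).add hth
  rw [mul_zero, add_zero] at hsum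
  refine squeeze_zero (fun n => LL_nonneg (fun p => le_max_right _ _) n) (fun n => ?_) hsum
  have e1 : θ * LL (fun p => max (a p - 1 / 4) 0) n + LL h n =
      LL (fun p => θ * max (a p - 1 / 4) 0 + h p) n := by
    unfold LL
    rw [AA_add, AA_smul]
    ring
  rw [e1]
  apply LL_le_LL
  intro p
  have h1 := final_pt (y p) τ hθ0
  have h2 : τ + θ = M + η := by rw [hτ]; ring
  rw [h2] at h1
  exact h1

end Pool.Agent.Helper94.Tot
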