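import Pool.Agent.Helper94.Tot.Soft7

/-!
# Normal order of the iterated totient class: the convergence theorem
-/

set_option autoImplicit false

open Finset Filter Topology

namespace Pool.Agent.Helper94.Tot

/-- the sum of the reciprocals of the primes in `(2^U, 2^(2U)]` -/
theorem recip_double {CM : ℝ} (hM1 : ∀ n : ℕ, |∑ p ∈ PN n, lg p / p - n| ≤ CM) {U : ℕ}
    (hU : 4 * CM ≤ U) (hU1 : 1 ≤ U) : (1 : ℝ) / 4 ≤ ∑ q ∈ PN (2 * U) \ PN U, 1 / (q : ℝ) := by
  have hU0 : (1 : ℝ) ≤ U := by exact_mod_cast hU1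
  have h1 := (abs_le.1 (hM1 (2 * U))).1
  have h2 := (abs_le.1 (hM1 U)).2
  have h3 := sum_PN_split (fun p => lg p / (p : ℝ)) (show U ≤ 2 * U by omega)
  have h4 : ∑ p ∈ PN (2 * U) \ PN U, lg p / (p : ℝ) ≤
      (2 * U) * ∑ q ∈ PN (2 * U) \ PN U, 1 / (q : ℝ) := by
    rw [Finset.mul_sum]
    apply Finset.sum_le_sum
    intro p hp
    rw [Finset.mem_sdiff] at hp
    have h5 := lg_PN hp.1
    push_cast at h5
    have h6 : (0 : ℝ) ≤ 1 / (p : ℝ) := by positivity
    calc lg p / (p : ℝ) = lg p * (1 / p) := by ring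
      _ ≤ _ := mul_le_mul_of_nonneg_right h5 h6
  push_cast at h1
  have h5 : (U : ℝ) - 2 * CM ≤ (2 * U) * ∑ q ∈ PN (2 * U) \ PN U, 1 / (q : ℝ) := by linarith
  have h6 : (2 * (U : ℝ)) * (1 / 4) ≤ (2 * U) * ∑ q ∈ PN (2 * U) \ PN U, 1 / (q : ℝ) := by
    linarith
  exact le_of_mul_le_mul_left h6 (by linarith)

theorem recip_pow {CM : ℝ} (hM1 : ∀ n : ℕ, |∑ p ∈ PN n, lg p / p - n| ≤ CM) {U : ℕ}
    (hU : 4 * CM ≤ U) (hU1 : 1 ≤ U) (k : ℕ) :
    (k : ℝ) / 4 ≤ ∑ q ∈ PN (2 ^ k * U) \ PN U, 1 / (q : ℝ) := by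
  induction k with
  | zero => simp
  | succ k ih =>
    have hV1 : 1 ≤ 2 ^ k * U := Nat.one_le_iff_ne_zero.2 (by have : 0 < U := by omega
                                                             positivity)
    have hUV : U ≤ 2 ^ k * U := Nat.le_mul_of_pos_left U (by positivity)
    have hUr : (U : ℝ) ≤ ((2 ^ k * U : ℕ) : ℝ) := by exact_mod_cast hUV
    have h1 := recip_double hM1 (U := 2 ^ k * U) (by linarith) hV1
    have e1 : 2 ^ (k + 1) * U = 2 * (2 ^ k * U) := by ring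
    rw [e1]
    have h2 := sum_PN_split (fun q => 1 / (q : ℝ)) (show U ≤ 2 * (2 ^ k * U) by omega)
    have h3 := sum_PN_split (fun q => 1 / (q : ℝ)) (show 2 ^ k * U ≤ 2 * (2 ^ k * U) by omega)
    have h4 := sum_PN_split (fun q => 1 / (q : ℝ)) hUV
    push_cast at ih ⊢
    linarith

theorem LL_one_tendsto {CM : ℝ} (hM1 : ∀ n : ℕ, |∑ p ∈ PN n, lg p / p - n| ≤ CM) :
    Tendsto (LL (fun _ => 1)) atTop (𝓝 1) := by
  have hCM : 0 ≤ CM := (abs_nonneg _).trans (hM1 0)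
  have h1 : ∀ n : ℕ, LL (fun _ => 1) n = (∑ p ∈ PN n, lg p / p) / n := by
    intro n
    unfold LL AA
    simp
  have h2 : Tendsto (fun n : ℕ => LL (fun _ => 1) n - 1) atTop (𝓝 0) := by
    have h3 : Tendsto (fun n : ℕ => CM / (n : ℝ)) atTop (𝓝 0) :=
      tendsto_const_div_atTop_nhds_zero_nat CM
    rw [tendsto_zero_iff_abs_tendsto_zero]
    refine squeeze_zero' (Eventually.of_forall (fun n => abs_nonneg _)) ?_ h3
    filter_upwards [eventually_ge_atTop 1] with n hn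
    have hn0 : (0 : ℝ) < n := by exact_mod_cast hn
    rw [Function.comp_apply, h1]
    have e1 : (∑ p ∈ PN n, lg p / (p : ℝ)) / n - 1 = (∑ p ∈ PN n, lg p / (p : ℝ) - n) / n := by
      field_simp
    rw [e1, abs_div, abs_of_pos hn0]
    exact div_le_div_of_nonneg_right (hM1 n) hn0.le
  have := h2.add_const 1
  simpa using this

/-- the upper threshold -/
noncomputable def Mp (y : ℕ → ℝ) : ℝ := sInf {τ : ℝ | 0 ≤ τ ∧ Zt y τ}

theorem Mp_mem_one {y : ℕ → ℝ} (hy : ∀ p, 0 ≤ y p ∧ y p ≤ 1) :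
    (1 : ℝ) ∈ {τ : ℝ | 0 ≤ τ ∧ Zt y τ} := by
  refine ⟨zero_le_one, ?_⟩
  unfold Zt
  have : (fun p => max (y p - 1) 0) = fun _ => (0 : ℝ) := by
    funext p
    rw [max_eq_right (by linarith [(hy p).2])]
  rw [this]
  have h2 : LL (fun _ => (0 : ℝ)) = fun _ => 0 := by
    funext n
    unfold LL AA
    simp
  rw [h2]
  exact tendsto_const_nhds

theorem Mp_nonneg {y : ℕ → ℝ} (hy : ∀ p, 0 ≤ y p ∧ y p ≤ 1) : 0 ≤ Mp y :=
  le_csInf ⟨1, Mp_mem_one hy⟩ (fun _ h => h.1)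

theorem Mp_le_one {y : ℕ → ℝ} (hy : ∀ p, 0 ≤ y p ∧ y p ≤ 1) : Mp y ≤ 1 :=
  csInf_le ⟨0, fun _ h => h.1⟩ (Mp_mem_one hy)

theorem Mp_le {y : ℕ → ℝ} {τ : ℝ} (h0 : 0 ≤ τ) (h : Zt y τ) : Mp y ≤ τ :=
  csInf_le ⟨0, fun _ h => h.1⟩ ⟨h0, h⟩

theorem Zt_of_gt {y : ℕ → ℝ} (hy : ∀ p, 0 ≤ y p ∧ y p ≤ 1) {τ : ℝ} (h : Mp y < τ) : Zt y τ := by
  obtain ⟨τ', hτ', hlt⟩ := exists_lt_of_csInf_lt ⟨1, Mp_mem_one hy⟩ h
  exact hτ'.2.mono hlt.le

theorem pf_Main (hN1 : StmtN1) (hN2 : StmtN2) (hMX : StmtMX) (hM1 : StmtM1) (hD3 : StmtD3) :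
    StmtMain := by
  intro y hy hs hs'
  obtain ⟨k, hk⟩ := contraction hN1 hN2 hMX hM1 hD3
  obtain ⟨CM, hCM, hM⟩ := hM1
  set y' : ℕ → ℝ := fun p => 1 - y p with hy'
  have hy01' : ∀ p, 0 ≤ y' p ∧ y' p ≤ 1 := fun p => by
    rw [hy']; constructor
    · linarith [(hy p).2]
    · linarith [(hy p).1]
  have hone := LL_one_tendsto hM
  -- first inequality
  have hge : 1 ≤ Mp y + Mp y' := by
    by_contra hcon
    push Not at hcon
    set g := (1 - (Mp y + Mp y')) / 3 with hg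
    have hg0 : 0 < g := by rw [hg]; linarith
    have h1 := Zt_of_gt hy (τ := Mp y + g) (by linarith)
    have h2 := Zt_of_gt hy01' (τ := Mp y' + g) (by linarith)
    unfold Zt at h1 h2
    have h3 := h1.add h2
    rw [add_zero] at h3
    have h4 : Tendsto (fun n => g * LL (fun _ => 1) n) atTop (𝓝 (g * 1)) := hone.const_mul g
    have h5 : g * 1 ≤ 0 := by
      apply le_of_tendsto_of_tendsto' h4 h3
      intro n
      have e1 : g * LL (fun _ => 1) n = LL (fun p => g * (fun _ => (1 : ℝ)) p) n := by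
        unfold LL; rw [AA_smul]; ring
      have e2 : LL (fun p => max (y p - (Mp y + g)) 0) n + LL (fun p => max (y' p - (Mp y' + g)) 0) n
          = LL (fun p => max (y p - (Mp y + g)) 0 + max (y' p - (Mp y' + g)) 0) n := by
        unfold LL; rw [AA_add]; ring
      rw [e1, e2]
      apply LL_le_LL
      intro p
      have a1 := le_max_left (y p - (Mp y + g)) 0
      have a2 := le_max_left (y' p - (Mp y' + g)) 0
      have a3 : y' p = 1 - y p := rfl
      rw [a3] at a2 ⊢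
      have a4 : 3 * g = 1 - (Mp y + Mp y') := by rw [hg]; ring
      linarith
    linarith
  -- second inequality
  have hle : Mp y + Mp y' ≤ 1 := by
    by_contra hcon
    push Not at hcon
    set Λ := (Mp y + Mp y' - 1) / 2 with hΛ
    have hΛ0 : 0 < Λ := by rw [hΛ]; linarith
    have b1 := Mp_le_one hy
    have b2 := Mp_le_one hy01'
    obtain ⟨U1, hU1⟩ := exists_nat_ge (4 * CM)
    have hsplit : ∀ U : ℕ, max U1 1 ≤ U →
        (k : ℝ) / 8 ≤ ∑ q ∈ (PN (2 ^ k * U) \ PN U).filter (fun q => y q ≤ Mp y - Λ), 1 / (q : ℝ) ∨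
        (k : ℝ) / 8 ≤ ∑ q ∈ (PN (2 ^ k * U) \ PN U).filter (fun q => y' q ≤ Mp y' - Λ),
          1 / (q : ℝ) := by
      intro U hU
      have hUU : U1 ≤ U := (le_max_left _ _).trans hU
      have hU1' : 1 ≤ U := (le_max_right _ _).trans hU
      have h1 := recip_pow hM (U := U) (hU1.trans (by exact_mod_cast hUU)) hU1' k
      by_contra hcon
      push Not at hcon
      have h2 : ∑ q ∈ PN (2 ^ k * U) \ PN U, 1 / (q : ℝ) ≤
          ∑ q ∈ (PN (2 ^ k * U) \ PN U).filter (fun q => y q ≤ Mp y - Λ), 1 / (q : ℝ) +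
          ∑ q ∈ (PN (2 ^ k * U) \ PN U).filter (fun q => y' q ≤ Mp y' - Λ), 1 / (q : ℝ) := by
        rw [Finset.sum_filter, Finset.sum_filter, ← Finset.sum_add_distrib]
        apply Finset.sum_le_sum
        intro q _
        have hq : (0 : ℝ) ≤ 1 / (q : ℝ) := by positivity
        rcases le_total (y q) (Mp y - Λ) with h3 | h3
        · rw [if_pos h3]
          split_ifs <;> linarith
        · have h4 : y' q ≤ Mp y' - Λ := by
            have a3 : y' q = 1 - y q := rfl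
            rw [a3]
            have a4 : 2 * Λ = Mp y + Mp y' - 1 := by rw [hΛ]; ring
            linarith
          rw [if_pos h4]
          split_ifs <;> linarith
      linarith [hcon.1, hcon.2]
    by_cases hfr : ∀ U0 : ℕ, ∃ U : ℕ, U0 ≤ U ∧
        (k : ℝ) / 8 ≤ ∑ q ∈ (PN (2 ^ k * U) \ PN U).filter (fun q => y q ≤ Mp y - Λ), 1 / (q : ℝ)
    · obtain ⟨τ, h0, h1, h2⟩ := hk y hy hs (Mp y) Λ hΛ0 (by rw [hΛ]; linarith) b1
        (fun τ hτ => Zt_of_gt hy hτ) hfr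
      have := Mp_le h0 h2
      linarith
    · push Not at hfr
      obtain ⟨U0, hU0⟩ := hfr
      obtain ⟨τ, h0, h1, h2⟩ := hk y' hy01' hs' (Mp y') Λ hΛ0 (by rw [hΛ]; linarith) b2
        (fun τ hτ => Zt_of_gt hy01' hτ) (fun V0 => by
          refine ⟨max V0 (max U0 (max U1 1)), le_max_left _ _, ?_⟩
          set U := max V0 (max U0 (max U1 1)) with hU
          have c1 : U0 ≤ U := (le_max_left _ _).trans (le_max_right _ _)
          have c2 : max U1 1 ≤ U := (le_max_right _ _).trans (le_max_right _ _)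
          rcases hsplit U c2 with h3 | h3
          · have := hU0 U c1
            linarith
          · exact h3)
      have := Mp_le h0 h2
      linarith
  have heq : Mp y + Mp y' = 1 := le_antisymm hle hge
  refine ⟨Mp y, Mp_nonneg hy, ?_⟩
  show Tendsto (LL (fun p => |y p - Mp y|)) atTop (𝓝 0)
  rw [Metric.tendsto_atTop]
  intro ε hε
  have h1 := Zt_of_gt hy (τ := Mp y + ε / 8) (by linarith)
  have h2 := Zt_of_gt hy01' (τ := Mp y' + ε / 8) (by linarith)
  unfold Zt at h1 h2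
  have h3 := (h1.add h2).add (hone.const_mul (ε / 4))
  rw [add_zero, zero_add, mul_one] at h3
  have h4 := (h3.eventually (gt_mem_nhds (show ε / 4 < ε by linarith))).exists_forall_of_atTop
  obtain ⟨N, hN⟩ := h4
  refine ⟨N, fun n hn => ?_⟩
  have h5 := hN n hn
  rw [Real.dist_eq, sub_zero, abs_of_nonneg (LL_nonneg (fun p => abs_nonneg _) n)]
  refine lt_of_le_of_lt ?_ h5
  have e1 : LL (fun p => max (y p - (Mp y + ε / 8)) 0) n +
      LL (fun p => max (y' p - (Mp y' + ε / 8)) 0) n + ε / 4 * LL (fun _ => 1) n =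
      LL (fun p => (max (y p - (Mp y + ε / 8)) 0 + max (y' p - (Mp y' + ε / 8)) 0) +
        (fun p => ε / 4 * (fun _ => (1 : ℝ)) p) p) n := by
    unfold LL
    rw [AA_add (fun p => max (y p - (Mp y + ε / 8)) 0 + max (y' p - (Mp y' + ε / 8)) 0),
      AA_add, AA_smul]
    ring
  rw [e1]
  apply LL_le_LL
  intro p
  have a1 := le_max_left (y p - (Mp y + ε / 8)) 0
  have a2 := le_max_left (y' p - (Mp y' + ε / 8)) 0
  have a3 := le_max_right (y p - (Mp y + ε / 8)) 0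
  have a4 := le_max_right (y' p - (Mp y' + ε / 8)) 0
  have a5 : y' p = 1 - y p := rfl
  rw [a5] at a2 a4 ⊢
  simp only [mul_one]
  rcases le_total (y p) (Mp y) with h6 | h6
  · rw [abs_of_nonpos (by linarith)]; linarith
  · rw [abs_of_nonneg (by linarith)]; linarith

end Pool.Agent.Helper94.Tot
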